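import Pool.Agent.H32.Ext.Det

/-! EXT Basic: elementary facts on protocol trees. -/

namespace Pool.Agent.H32.Ext

open scoped BigOperators

namespace Prot

variable {X Y O : Type}

theorem basic_sum_alice (p : X → unitInterval) (l r : Prot X Y O)
    (f : (Prot.alice p l r).Leaf → ℝ) :
    ∑ π, f π = ∑ π : l.Leaf, f (Sum.inl π) + ∑ π : r.Leaf, f (Sum.inr π) :=
  Fintype.sum_sum_type (α₁ := l.Leaf) (α₂ := r.Leaf) f

theorem basic_sum_bob (p : Y → unitInterval) (l r : Prot X Y O)
    (f : (Prot.bob p l r).Leaf → ℝ) :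
    ∑ π, f π = ∑ π : l.Leaf, f (Sum.inl π) + ∑ π : r.Leaf, f (Sum.inr π) :=
  Fintype.sum_sum_type (α₁ := l.Leaf) (α₂ := r.Leaf) f

theorem basic_sum_coin (p : unitInterval) (l r : Prot X Y O)
    (f : (Prot.coin p l r).Leaf → ℝ) :
    ∑ π, f π = ∑ π : l.Leaf, f (Sum.inl π) + ∑ π : r.Leaf, f (Sum.inr π) :=
  Fintype.sum_sum_type (α₁ := l.Leaf) (α₂ := r.Leaf) f

theorem basic_sum_leaf (o : O) (f : (Prot.leaf o : Prot X Y O).Leaf → ℝ) :
    ∑ π, f π = f () :=
  Fintype.sum_unique (ι := Unit) f

theorem pr_nonneg (P : Prot X Y O) (x : X) (y : Y) (π : P.Leaf) : 0 ≤ P.pr x y π := by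
  induction P with
  | leaf o => exact zero_le_one
  | alice p l r ihl ihr =>
    rcases π with π | π
    · exact mul_nonneg (sub_nonneg.2 (p x).2.2) (ihl π)
    · exact mul_nonneg (p x).2.1 (ihr π)
  | bob p l r ihl ihr =>
    rcases π with π | π
    · exact mul_nonneg (sub_nonneg.2 (p y).2.2) (ihl π)
    · exact mul_nonneg (p y).2.1 (ihr π)
  | coin p l r ihl ihr =>
    rcases π with π | π
    · exact mul_nonneg (sub_nonneg.2 p.2.2) (ihl π)
    · exact mul_nonneg p.2.1 (ihr π)

theorem sum_pr (P : Prot X Y O) (x : X) (y : Y) : ∑ π : P.Leaf, P.pr x y π = 1 := by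
  induction P with
  | leaf o => exact basic_sum_leaf o _
  | alice p l r ihl ihr =>
    rw [basic_sum_alice]
    simp only [pr]
    rw [← Finset.mul_sum, ← Finset.mul_sum, ihl, ihr]
    ring
  | bob p l r ihl ihr =>
    rw [basic_sum_bob]
    simp only [pr]
    rw [← Finset.mul_sum, ← Finset.mul_sum, ihl, ihr]
    ring
  | coin p l r ihl ihr =>
    rw [basic_sum_coin]
    simp only [pr]
    rw [← Finset.mul_sum, ← Finset.mul_sum, ihl, ihr]
    ring

theorem exists_factor (P : Prot X Y O) :
    ∃ (u : P.Leaf → X → ℝ) (q : P.Leaf → Y → ℝ), (∀ π x, 0 ≤ u π x) ∧ (∀ π y, 0 ≤ q π y) ∧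
      ∀ x y π, P.pr x y π = u π x * q π y := by
  induction P with
  | leaf o =>
    exact ⟨fun _ _ => 1, fun _ _ => 1, fun _ _ => zero_le_one, fun _ _ => zero_le_one,
      fun x y π => (one_mul (1 : ℝ)).symm⟩
  | alice p l r ihl ihr =>
    obtain ⟨u1, q1, hu1, hq1, h1⟩ := ihl
    obtain ⟨u2, q2, hu2, hq2, h2⟩ := ihr
    refine ⟨Sum.elim (fun π x => (1 - (p x : ℝ)) * u1 π x) (fun π x => (p x : ℝ) * u2 π x),
      Sum.elim q1 q2, ?_, ?_, ?_⟩
    · rintro (π | π) x
      · exact mul_nonneg (sub_nonneg.2 (p x).2.2) (hu1 π x)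
      · exact mul_nonneg (p x).2.1 (hu2 π x)
    · rintro (π | π) y
      · exact hq1 π y
      · exact hq2 π y
    · rintro x y (π | π)
      · change (1 - (p x : ℝ)) * l.pr x y π = (1 - (p x : ℝ)) * u1 π x * q1 π y
        rw [h1, mul_assoc]
      · change (p x : ℝ) * r.pr x y π = (p x : ℝ) * u2 π x * q2 π y
        rw [h2, mul_assoc]
  | bob p l r ihl ihr =>
    obtain ⟨u1, q1, hu1, hq1, h1⟩ := ihl
    obtain ⟨u2, q2, hu2, hq2, h2⟩ := ihr
    refine ⟨Sum.elim u1 u2, Sum.elim (fun π y => (1 - (p y : ℝ)) * q1 π y)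
      (fun π y => (p y : ℝ) * q2 π y), ?_, ?_, ?_⟩
    · rintro (π | π) x
      · exact hu1 π x
      · exact hu2 π x
    · rintro (π | π) y
      · exact mul_nonneg (sub_nonneg.2 (p y).2.2) (hq1 π y)
      · exact mul_nonneg (p y).2.1 (hq2 π y)
    · rintro x y (π | π)
      · change (1 - (p y : ℝ)) * l.pr x y π = u1 π x * ((1 - (p y : ℝ)) * q1 π y)
        rw [h1]; ring
      · change (p y : ℝ) * r.pr x y π = u2 π x * ((p y : ℝ) * q2 π y)
        rw [h2]; ring
  | coin p l r ihl ihr =>
    obtain ⟨u1, q1, hu1, hq1, h1⟩ := ihl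
    obtain ⟨u2, q2, hu2, hq2, h2⟩ := ihr
    refine ⟨Sum.elim (fun π x => (1 - (p : ℝ)) * u1 π x) (fun π x => (p : ℝ) * u2 π x),
      Sum.elim q1 q2, ?_, ?_, ?_⟩
    · rintro (π | π) x
      · exact mul_nonneg (sub_nonneg.2 p.2.2) (hu1 π x)
      · exact mul_nonneg p.2.1 (hu2 π x)
    · rintro (π | π) y
      · exact hq1 π y
      · exact hq2 π y
    · rintro x y (π | π)
      · change (1 - (p : ℝ)) * l.pr x y π = (1 - (p : ℝ)) * u1 π x * q1 π y
        rw [h1, mul_assoc]
      · change (p : ℝ) * r.pr x y π = (p : ℝ) * u2 π x * q2 π y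
        rw [h2, mul_assoc]

end Prot

namespace DProt

variable {X Y O : Type}

theorem basic_bp_false : (bp false : ℝ) = 0 := by simp [bp]

theorem basic_bp_true : (bp true : ℝ) = 1 := by simp [bp]

theorem basic_out (D : DProt X Y O) (x : X) (y : Y) (π : D.toProt.Leaf)
    (h : 0 < D.toProt.pr x y π) : D.toProt.out π = D.run x y := by
  induction D with
  | leaf o => rfl
  | alice f k ih =>
    rcases π with π | π
    · change 0 < (1 - (bp (f x) : ℝ)) * (k false).toProt.pr x y π at h
      cases hf : f x with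
      | true =>
        rw [hf, basic_bp_true, sub_self, zero_mul] at h
        exact absurd h (lt_irrefl _)
      | false =>
        rw [hf, basic_bp_false, sub_zero, one_mul] at h
        change (k false).toProt.out π = (k (f x)).run x y
        rw [hf]
        exact ih false π h
    · change 0 < (bp (f x) : ℝ) * (k true).toProt.pr x y π at h
      cases hf : f x with
      | false =>
        rw [hf, basic_bp_false, zero_mul] at h
        exact absurd h (lt_irrefl _)
      | true =>
        rw [hf, basic_bp_true, one_mul] at h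
        change (k true).toProt.out π = (k (f x)).run x y
        rw [hf]
        exact ih true π h
  | bob f k ih =>
    rcases π with π | π
    · change 0 < (1 - (bp (f y) : ℝ)) * (k false).toProt.pr x y π at h
      cases hf : f y with
      | true =>
        rw [hf, basic_bp_true, sub_self, zero_mul] at h
        exact absurd h (lt_irrefl _)
      | false =>
        rw [hf, basic_bp_false, sub_zero, one_mul] at h
        change (k false).toProt.out π = (k (f y)).run x y
        rw [hf]
        exact ih false π h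
    · change 0 < (bp (f y) : ℝ) * (k true).toProt.pr x y π at h
      cases hf : f y with
      | false =>
        rw [hf, basic_bp_false, zero_mul] at h
        exact absurd h (lt_irrefl _)
      | true =>
        rw [hf, basic_bp_true, one_mul] at h
        change (k true).toProt.out π = (k (f y)).run x y
        rw [hf]
        exact ih true π h

theorem toProt_zeroError (D : DProt X Y O) (G : X → Y → O) (h : ∀ x y, D.run x y = G x y) :
    D.toProt.ZeroError G := by
  intro x y π hπ
  rw [basic_out D x y π hπ, h]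

theorem basic_step (l r : Prot X Y O) (x : X) (y : Y) (b : Bool) (cl cr : ℝ)
    (hl : ∑ π : l.Leaf, l.pr x y π * (l.bits π : ℝ) = cl)
    (hr : ∑ π : r.Leaf, r.pr x y π * (r.bits π : ℝ) = cr) :
    ∑ π : l.Leaf, (1 - (bp b : ℝ)) * l.pr x y π * ((l.bits π + 1 : ℕ) : ℝ) +
      ∑ π : r.Leaf, (bp b : ℝ) * r.pr x y π * ((r.bits π + 1 : ℕ) : ℝ) =
      (if b then cr else cl) + 1 := by
  have h1 : ∑ π : l.Leaf, (1 - (bp b : ℝ)) * l.pr x y π * ((l.bits π + 1 : ℕ) : ℝ) =
      (1 - (bp b : ℝ)) * (cl + 1) := by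
    rw [← hl, ← Prot.sum_pr l x y, ← Finset.sum_add_distrib, Finset.mul_sum]
    refine Finset.sum_congr rfl fun π _ => ?_
    push_cast; ring
  have h2 : ∑ π : r.Leaf, (bp b : ℝ) * r.pr x y π * ((r.bits π + 1 : ℕ) : ℝ) =
      (bp b : ℝ) * (cr + 1) := by
    rw [← hr, ← Prot.sum_pr r x y, ← Finset.sum_add_distrib, Finset.mul_sum]
    refine Finset.sum_congr rfl fun π _ => ?_
    push_cast; ring
  rw [h1, h2]
  cases b
  · rw [basic_bp_false]; simp
  · rw [basic_bp_true]; simp

theorem toProt_bits (D : DProt X Y O) (x : X) (y : Y) :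
    ∑ π : D.toProt.Leaf, D.toProt.pr x y π * (D.toProt.bits π : ℝ) = (D.cost x y : ℝ) := by
  induction D with
  | leaf o =>
    refine (Prot.basic_sum_leaf (X := X) (Y := Y) o _).trans ?_
    change (1 : ℝ) * ((0 : ℕ) : ℝ) = ((0 : ℕ) : ℝ)
    simp
  | alice f k ih =>
    refine (Prot.basic_sum_alice (fun x => bp (f x)) (k false).toProt (k true).toProt _).trans ?_
    refine (basic_step (k false).toProt (k true).toProt x y (f x) _ _ (ih false)
      (ih true)).trans ?_
    change _ = (((k (f x)).cost x y + 1 : ℕ) : ℝ)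
    cases f x <;> simp
  | bob f k ih =>
    refine (Prot.basic_sum_bob (fun y => bp (f y)) (k false).toProt (k true).toProt _).trans ?_
    refine (basic_step (k false).toProt (k true).toProt x y (f y) _ _ (ih false)
      (ih true)).trans ?_
    change _ = (((k (f y)).cost x y + 1 : ℕ) : ℝ)
    cases f y <;> simp

end DProt

end Pool.Agent.H32.Ext
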