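import Pool.Agent.H32.Ext.Ex

/-! EXT Block: recovering erased bits with few messages. Alice holds `a : ℕ → Bool`, Bob holds
`β : ℕ → Option Bool` (a partially erased copy). The output of the protocol is a decoding function
for Bob. -/

namespace Pool.Agent.H32.Ext

open scoped BigOperators

/-- parity of the bits in `[s, s + m)` -/
def BlockPar (f : ℕ → Bool) (s m : ℕ) : ZMod 2 :=
  ∑ p ∈ Finset.Ico s (s + m), if f p then 1 else 0

/-- the known bits -/
def BlockKnown (β : ℕ → Option Bool) (p : ℕ) : Bool := (β p).getD false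

/-- decoding with at most one erasure, from the parity `P` -/
def BlockDec (s m : ℕ) (P : Bool) (β : ℕ → Option Bool) (p : ℕ) : Bool :=
  match β p with
  | some b => b
  | none => decide ((if P then 1 else 0 : ZMod 2) - BlockPar (BlockKnown β) s m ≠ 0)

/-- the protocol on a block of size `m = 2 ^ (h + 1)`, given protocols for the two halves -/
def BlockProt (s m t : ℕ)
    (DL DR : DProt (ℕ → Bool) (ℕ → Option Bool) ((ℕ → Option Bool) → ℕ → Bool)) :
    DProt (ℕ → Bool) (ℕ → Option Bool) ((ℕ → Option Bool) → ℕ → Bool) :=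
  .alice (fun a => decide (BlockPar a s m ≠ 0)) fun P =>
    .bob (fun β => decide (1 ≤ pairs (fun p => (β p).isNone) s m)) fun fl =>
      if fl then DL.bind fun dL => DR.bind fun dR =>
        .leaf fun β p => if p < t then dL β p else dR β p
      else .leaf (BlockDec s m P)

theorem BlockPar_eq {f g : ℕ → Bool} {s m p : ℕ} (hp : p ∈ Finset.Ico s (s + m))
    (h : ∀ q ∈ Finset.Ico s (s + m), q ≠ p → f q = g q) :
    BlockPar f s m = BlockPar g s m + ((if f p then 1 else 0) - (if g p then 1 else 0)) := by
  unfold BlockPar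
  rw [← Finset.add_sum_erase _ _ hp, ← Finset.add_sum_erase _ _ hp]
  have h1 : ∑ q ∈ (Finset.Ico s (s + m)).erase p, (if f q then (1 : ZMod 2) else 0) =
      ∑ q ∈ (Finset.Ico s (s + m)).erase p, (if g q then (1 : ZMod 2) else 0) := by
    refine Finset.sum_congr rfl fun q hq => ?_
    rw [Finset.mem_erase] at hq
    rw [h q hq.2 hq.1]
  rw [h1]
  ring

theorem BlockDec_correct {a : ℕ → Bool} {β : ℕ → Option Bool} {s m : ℕ}
    (h : ∀ p ∈ Finset.Ico s (s + m), β p = none ∨ β p = some (a p))
    (h0 : pairs (fun p => (β p).isNone) s m = 0) {p : ℕ} (hp : p ∈ Finset.Ico s (s + m)) :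
    BlockDec s m (decide (BlockPar a s m ≠ 0)) β p = a p := by
  rcases h p hp with h1 | h1
  · have h2 : ∀ q ∈ Finset.Ico s (s + m), q ≠ p → a q = BlockKnown β q := by
      intro q hq hqp
      rcases h q hq with h3 | h3
      · exfalso
        have key : ∀ u ∈ Finset.Ico s (s + m), ∀ v ∈ Finset.Ico s (s + m), u < v →
            β u = none → β v = none → False := by
          intro u hu v hv huv h4 h5
          unfold pairs at h0
          rw [Finset.sum_eq_zero_iff] at h0
          have h6 := h0 u hu
          rw [Finset.sum_eq_zero_iff] at h6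
          have h7 := h6 v hv
          rw [if_pos ⟨huv, by simp [h4], by simp [h5]⟩] at h7
          exact one_ne_zero h7
        rcases lt_or_gt_of_ne hqp with h4 | h4
        · exact key q hq p hp h4 h3 h1
        · exact key p hp q hq h4 h1 h3
      · simp [BlockKnown, h3]
    have h3 := BlockPar_eq hp h2
    have h4 : BlockKnown β p = false := by simp [BlockKnown, h1]
    rw [h4] at h3
    unfold BlockDec
    rw [h1]
    change decide ((if decide (BlockPar a s m ≠ 0) = true then 1 else 0 : ZMod 2) -
      BlockPar (BlockKnown β) s m ≠ 0) = a p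
    have h5 : (if decide (BlockPar a s m ≠ 0) = true then 1 else 0 : ZMod 2) = BlockPar a s m := by
      generalize BlockPar a s m = z
      revert z
      decide
    rw [h5, h3]
    cases a p <;> simp
  · unfold BlockDec
    rw [h1]

theorem decode_block (h : ℕ) : ∀ s : ℕ,
    ∃ D : DProt (ℕ → Bool) (ℕ → Option Bool) ((ℕ → Option Bool) → ℕ → Bool),
      (∀ a β, (∀ p ∈ Finset.Ico s (s + 2 ^ h), β p = none ∨ β p = some (a p)) →
        ∀ p ∈ Finset.Ico s (s + 2 ^ h), D.run a β β p = a p) ∧
      ∀ a β, D.cost a β ≤ 2 + 4 * Phi (fun p => (β p).isNone) h s := by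
  induction h with
  | zero =>
    intro s
    refine ⟨.alice (fun a => a s) fun b => .leaf fun _ _ => b, ?_, ?_⟩
    · intro a β _ p hp
      rw [Finset.mem_Ico] at hp
      have : p = s := by omega
      subst this
      rfl
    · intro a β
      simp only [DProt.cost]
      omega
  | succ h ih =>
    intro s
    obtain ⟨DL, hL1, hL2⟩ := ih s
    obtain ⟨DR, hR1, hR2⟩ := ih (s + 2 ^ h)
    refine ⟨BlockProt s (2 ^ (h + 1)) (s + 2 ^ h) DL DR, ?_, ?_⟩
    · intro a β hab p hp
      have h2 : 2 ^ (h + 1) = 2 ^ h + 2 ^ h := by ring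
      unfold BlockProt
      simp only [DProt.run]
      by_cases hfl : 1 ≤ pairs (fun p => (β p).isNone) s (2 ^ (h + 1))
      · rw [decide_eq_true hfl, if_pos rfl, DProt.run_bind, DProt.run_bind]
        simp only [DProt.run]
        rw [Finset.mem_Ico] at hp
        split_ifs with hlt
        · refine hL1 a β (fun q hq => hab q ?_) p (Finset.mem_Ico.2 ⟨hp.1, hlt⟩)
          rw [Finset.mem_Ico] at hq ⊢
          omega
        · refine hR1 a β (fun q hq => hab q ?_) p (Finset.mem_Ico.2 ⟨by omega, by omega⟩)
          rw [Finset.mem_Ico] at hq ⊢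
          omega
      · rw [decide_eq_false hfl, if_neg (by simp)]
        simp only [DProt.run]
        exact BlockDec_correct hab (by omega) hp
    · intro a β
      have hl := hL2 a β
      have hr := hR2 a β
      unfold BlockProt
      simp only [DProt.cost, Phi]
      by_cases hfl : 1 ≤ pairs (fun p => (β p).isNone) s (2 ^ (h + 1))
      · rw [decide_eq_true hfl, if_pos rfl, DProt.cost_bind, DProt.cost_bind]
        simp only [DProt.cost]
        omega
      · rw [decide_eq_false hfl, if_neg (by simp)]
        simp only [DProt.cost]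
        omega

end Pool.Agent.H32.Ext
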