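import Pool.Agent.H32.Ext.Ex

/-! EXT Comb: cross-intersecting families of pairs; counting permutations. -/

namespace Pool.Agent.H32.Ext
open scoped BigOperators

theorem card_fiber_aux {G I : Type} [Fintype G] [DecidableEq I] (f : G → I) (t : Finset I)
    (hf : ∀ g, f g ∈ t) (N : ℕ)
    (h : ∀ j ∈ t, (Finset.univ.filter (fun g => f g = j)).card = N) :
    N * t.card = Fintype.card G := by
  rw [← Finset.card_univ (α := G), Finset.card_eq_sum_card_fiberwise (f := f) (t := t)
    (fun g _ => Finset.mem_coe.2 (hf g)), Finset.sum_congr rfl h, Finset.sum_const, smul_eq_mul,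
    mul_comm]

theorem card_filter_equiv {G : Type} [Fintype G] (p q : G → Prop) [DecidablePred p]
    [DecidablePred q] (e : G ≃ G) (h : ∀ g, p g ↔ q (e g)) :
    (Finset.univ.filter p).card = (Finset.univ.filter q).card := by
  refine Finset.card_bij' (fun g _ => e g) (fun g _ => e.symm g) ?_ ?_ ?_ ?_
  · intro g hg
    rw [Finset.mem_filter] at hg ⊢
    exact ⟨Finset.mem_univ _, (h g).1 hg.2⟩
  · intro g hg
    rw [Finset.mem_filter] at hg ⊢
    refine ⟨Finset.mem_univ _, (h _).2 ?_⟩
    rw [Equiv.apply_symm_apply]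
    exact hg.2
  · intro g _
    exact e.symm_apply_apply g
  · intro g _
    exact e.apply_symm_apply g

theorem card_perm_fix (i : Fin 32) :
    (Finset.univ.filter (fun σ : Equiv.Perm (Fin 32) => σ 0 = i)).card * 32 =
      Fintype.card (Equiv.Perm (Fin 32)) := by
  have h := card_fiber_aux (fun σ : Equiv.Perm (Fin 32) => σ 0) Finset.univ
    (fun _ => Finset.mem_univ _)
    (Finset.univ.filter (fun σ : Equiv.Perm (Fin 32) => σ 0 = i)).card (by
      intro j _
      apply card_filter_equiv _ _ (Equiv.mulLeft (Equiv.swap i j))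
      intro σ
      rw [Equiv.coe_mulLeft, Equiv.Perm.mul_apply]
      constructor
      · intro hσ
        rw [hσ, Equiv.swap_apply_right]
      · intro hσ
        rw [← Equiv.swap_apply_self i j (σ 0), hσ, Equiv.swap_apply_left])
  rwa [Finset.card_univ, Fintype.card_fin] at h

theorem exists_perm2 (i j i' j' : Fin 32) (h : i ≠ j) (h' : i' ≠ j') :
    ∃ τ : Equiv.Perm (Fin 32), τ i = i' ∧ τ j = j' := by
  refine ⟨Equiv.swap (Equiv.swap i i' j) j' * Equiv.swap i i', ?_, ?_⟩
  · rw [Equiv.Perm.mul_apply, Equiv.swap_apply_left]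
    refine Equiv.swap_apply_of_ne_of_ne ?_ h'
    intro hh
    apply h
    apply (Equiv.swap i i').injective
    rw [Equiv.swap_apply_left, ← hh]
  · rw [Equiv.Perm.mul_apply, Equiv.swap_apply_left]

theorem card_perm_fix2 (i j : Fin 32) (hij : i ≠ j) (k : Fin 32) (hk : k ≠ 0) :
    (Finset.univ.filter (fun σ : Equiv.Perm (Fin 32) => σ 0 = i ∧ σ k = j)).card * (32 * 31) =
      Fintype.card (Equiv.Perm (Fin 32)) := by
  have h := card_fiber_aux (fun σ : Equiv.Perm (Fin 32) => (σ 0, σ k))
    (Finset.univ : Finset (Fin 32)).offDiag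
    (fun σ => Finset.mem_offDiag.2
      ⟨Finset.mem_univ _, Finset.mem_univ _, fun hh => hk (σ.injective hh).symm⟩)
    (Finset.univ.filter (fun σ : Equiv.Perm (Fin 32) => σ 0 = i ∧ σ k = j)).card (by
      rintro ⟨i', j'⟩ hp
      obtain ⟨τ, h1, h2⟩ := exists_perm2 i' j' i j (Finset.mem_offDiag.1 hp).2.2 hij
      apply card_filter_equiv _ _ (Equiv.mulLeft τ)
      intro σ
      rw [Equiv.coe_mulLeft, Equiv.Perm.mul_apply, Equiv.Perm.mul_apply, Prod.mk.injEq]
      constructor
      · rintro ⟨h3, h4⟩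
        rw [h3, h4]
        exact ⟨h1, h2⟩
      · rintro ⟨h3, h4⟩
        exact ⟨τ.injective (h3.trans h1.symm), τ.injective (h4.trans h2.symm)⟩)
  rwa [Finset.offDiag_card, Finset.card_univ, Fintype.card_fin,
    show 32 * 32 - 32 = 32 * 31 from rfl] at h
/-- if at least three pairs of `A` contain `p`, all pairs of `B` contain `p` -/
theorem all_contain {α : Type} [DecidableEq α] (A B : Finset (Finset α))
    (hA : ∀ s ∈ A, s.card = 2) (hB : ∀ t ∈ B, t.card = 2)
    (h : ∀ s ∈ A, ∀ t ∈ B, ∃ i, i ∈ s ∧ i ∈ t) (p : α)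
    (hp : 3 ≤ (A.filter (fun s => p ∈ s)).card) : ∀ t ∈ B, p ∈ t := by
  intro t ht
  by_contra hpt
  have hsub : A.filter (fun s => p ∈ s) ⊆ t.image (fun r => ({p, r} : Finset α)) := by
    intro s hs
    rw [Finset.mem_filter] at hs
    obtain ⟨i, his, hit⟩ := h s hs.1 t ht
    rw [Finset.mem_image]
    refine ⟨i, hit, ?_⟩
    have hne : p ≠ i := fun hh => hpt (hh ▸ hit)
    apply Finset.eq_of_subset_of_card_le
    · intro z hz
      rw [Finset.mem_insert, Finset.mem_singleton] at hz
      rcases hz with rfl | rfl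
      · exact hs.2
      · exact his
    · rw [hA s hs.1, Finset.card_pair hne]
  have h1 := Finset.card_le_card hsub
  have h2 := Finset.card_image_le (s := t) (f := fun r => ({p, r} : Finset α))
  rw [hB t ht] at h2
  omega

theorem star_of_five {α : Type} [DecidableEq α] (A B : Finset (Finset α))
    (hA : ∀ s ∈ A, s.card = 2) (hB : ∀ t ∈ B, t.card = 2)
    (h : ∀ s ∈ A, ∀ t ∈ B, ∃ i, i ∈ s ∧ i ∈ t) (h5A : 5 ≤ A.card) (h5B : 5 ≤ B.card) :
    ∃ i, (∀ s ∈ A, i ∈ s) ∧ ∀ t ∈ B, i ∈ t := by
  have key : ∀ p, 3 ≤ (A.filter (fun s => p ∈ s)).card →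
      ∃ i, (∀ s ∈ A, i ∈ s) ∧ ∀ t ∈ B, i ∈ t := by
    intro p hp
    have h1 := all_contain A B hA hB h p hp
    refine ⟨p, ?_, h1⟩
    apply all_contain B A hB hA (fun t ht s hs => ?_) p
    · rw [Finset.filter_true_of_mem h1]
      omega
    · obtain ⟨i, h2, h3⟩ := h s hs t ht
      exact ⟨i, h3, h2⟩
  obtain ⟨t0, ht0⟩ : B.Nonempty := by
    rw [← Finset.card_pos]
    omega
  obtain ⟨p, q, hpq, rfl⟩ := Finset.card_eq_two.1 (hB t0 ht0)
  have hcov : A ⊆ A.filter (fun s => p ∈ s) ∪ A.filter (fun s => q ∈ s) := by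
    intro s hs
    obtain ⟨i, h1, h2⟩ := h s hs _ ht0
    rw [Finset.mem_insert, Finset.mem_singleton] at h2
    rw [Finset.mem_union, Finset.mem_filter, Finset.mem_filter]
    rcases h2 with rfl | rfl
    · exact Or.inl ⟨hs, h1⟩
    · exact Or.inr ⟨hs, h1⟩
  have hc := (Finset.card_le_card hcov).trans (Finset.card_union_le _ _)
  by_cases h3 : 3 ≤ (A.filter (fun s => p ∈ s)).card
  · exact key p h3
  · apply key q
    omega

theorem card_filter_fst {G H : Type} [Fintype G] [Fintype H] (p : G → Prop) [DecidablePred p] :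
    (Finset.univ.filter (fun ω : G × H => p ω.1)).card =
      (Finset.univ.filter p).card * Fintype.card H := by
  have : (Finset.univ.filter (fun ω : G × H => p ω.1)) =
      (Finset.univ.filter p) ×ˢ (Finset.univ : Finset H) := by
    ext ω
    simp only [Finset.mem_filter, Finset.mem_univ, true_and, Finset.mem_product, and_true]
  rw [this, Finset.card_product, Finset.card_univ]

theorem card_filter_sum_le {G I : Type} [Fintype G] [DecidableEq I] (f : G → I) (P : Finset I)
    (M : ℕ) (K : ℕ) (h : ∀ s ∈ P, (Finset.univ.filter (fun g => f g = s)).card * M ≤ K) :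
    (Finset.univ.filter (fun g => f g ∈ P)).card * M ≤ P.card * K := by
  classical
  have h1 : (Finset.univ.filter (fun g => f g ∈ P)).card ≤
      ∑ s ∈ P, (Finset.univ.filter (fun g => f g = s)).card := by
    have h2 : Finset.univ.filter (fun g => f g ∈ P) ⊆
        P.biUnion (fun s => Finset.univ.filter (fun g => f g = s)) := by
      intro g hg
      rw [Finset.mem_biUnion]
      exact ⟨f g, (Finset.mem_filter.1 hg).2, Finset.mem_filter.2 ⟨Finset.mem_univ _, rfl⟩⟩
    exact (Finset.card_le_card h2).trans Finset.card_biUnion_le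
  calc _ ≤ (∑ s ∈ P, (Finset.univ.filter (fun g => f g = s)).card) * M :=
        Nat.mul_le_mul_right _ h1
    _ = ∑ s ∈ P, (Finset.univ.filter (fun g => f g = s)).card * M := by rw [Finset.sum_mul]
    _ ≤ ∑ s ∈ P, K := Finset.sum_le_sum h
    _ = P.card * K := by rw [Finset.sum_const, smul_eq_mul]

theorem card_filter_or_le {G : Type} [Fintype G] (r p q : G → Prop) [DecidablePred r]
    [DecidablePred p] [DecidablePred q] (h : ∀ g, r g → p g ∨ q g) (M K : ℕ)
    (hp : (Finset.univ.filter p).card * M = K) (hq : (Finset.univ.filter q).card * M = K) :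
    (Finset.univ.filter r).card * M ≤ 2 * K := by
  classical
  have h1 : (Finset.univ.filter r).card ≤
      (Finset.univ.filter p).card + (Finset.univ.filter q).card := by
    refine (Finset.card_le_card ?_).trans (Finset.card_union_le _ _)
    intro g hg
    rw [Finset.mem_union, Finset.mem_filter, Finset.mem_filter]
    rcases h g (Finset.mem_filter.1 hg).2 with h2 | h2
    · exact Or.inl ⟨Finset.mem_univ _, h2⟩
    · exact Or.inr ⟨Finset.mem_univ _, h2⟩
  calc _ ≤ ((Finset.univ.filter p).card + (Finset.univ.filter q).card) * M :=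
        Nat.mul_le_mul_right _ h1
    _ = 2 * K := by rw [add_mul, hp, hq, two_mul]

theorem arith_aux (a N c P : ℕ) (h : a * (32 * 31) ≤ P * (2 * N)) (hP : P ≤ 4) (hc : c = 4) :
    a * c * 124 ≤ N * c := by
  subst hc
  have : P * (2 * N) ≤ 4 * (2 * N) := Nat.mul_le_mul_right _ hP
  omega

/-- counting permutations sending `{0, k}` into one of at most four pairs -/
theorem count_small (k : Fin 32) (hk : k ≠ 0) (P : Finset (Finset (Fin 32)))
    (hP : P.card ≤ 4) (hP2 : ∀ s ∈ P, s.card = 2) :
    (Finset.univ.filter (fun ω : Smp => ({ω.1 0, ω.1 k} : Finset (Fin 32)) ∈ P)).card * 124 ≤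
      Fintype.card Smp := by
  have hone : ∀ s ∈ P, (Finset.univ.filter
      (fun σ : Equiv.Perm (Fin 32) => ({σ 0, σ k} : Finset (Fin 32)) = s)).card * (32 * 31) ≤
      2 * Fintype.card (Equiv.Perm (Fin 32)) := by
    intro s hs
    obtain ⟨i, j, hij, rfl⟩ := Finset.card_eq_two.1 (hP2 s hs)
    apply card_filter_or_le _ (fun σ : Equiv.Perm (Fin 32) => σ 0 = i ∧ σ k = j)
      (fun σ : Equiv.Perm (Fin 32) => σ 0 = j ∧ σ k = i) ?_ _ _
      (card_perm_fix2 i j hij k hk) (card_perm_fix2 j i hij.symm k hk)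
    intro σ hσ
    have h0 : σ 0 ∈ ({i, j} : Finset (Fin 32)) := by rw [← hσ]; simp
    have h1 : σ k ∈ ({i, j} : Finset (Fin 32)) := by rw [← hσ]; simp
    have hne : σ 0 ≠ σ k := fun hh => hk (σ.injective hh).symm
    rw [Finset.mem_insert, Finset.mem_singleton] at h0 h1
    rcases h0 with h0 | h0 <;> rcases h1 with h1 | h1
    · exact absurd (h0.trans h1.symm) hne
    · exact Or.inl ⟨h0, h1⟩
    · exact Or.inr ⟨h0, h1⟩
    · exact absurd (h0.trans h1.symm) hne
  have hperm := card_filter_sum_le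
    (fun σ : Equiv.Perm (Fin 32) => ({σ 0, σ k} : Finset (Fin 32))) P (32 * 31) _ hone
  have hprod := card_filter_fst (H := Bool × Bool)
    (fun σ : Equiv.Perm (Fin 32) => ({σ 0, σ k} : Finset (Fin 32)) ∈ P)
  have hcard : Fintype.card Smp =
      Fintype.card (Equiv.Perm (Fin 32)) * Fintype.card (Bool × Bool) := Fintype.card_prod _ _
  have h4 : Fintype.card (Bool × Bool) = 4 := by
    rw [Fintype.card_prod, Fintype.card_bool]
  rw [hcard]
  refine le_trans (le_of_eq ?_) (arith_aux _ _ _ _ hperm hP h4)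
  rw [← hprod]

theorem card_filter_imp_le {G : Type} [Fintype G] (r p : G → Prop) [DecidablePred r]
    [DecidablePred p] (M K : ℕ) (hp : (Finset.univ.filter p).card * M ≤ K)
    (h : ∀ g, r g → p g) : (Finset.univ.filter r).card * M ≤ K := by
  refine le_trans (Nat.mul_le_mul_right _ (Finset.card_le_card ?_)) hp
  intro g hg
  rw [Finset.mem_filter] at hg ⊢
  exact ⟨hg.1, h g hg.2⟩

/-- Either all pairs contain a common element or one of the two families is small. -/
theorem star_or_small (A : Finset X0) (B : Finset Y0) (hA : ∀ x ∈ A, x.1 ≠ x.2.1)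
    (hB : ∀ y ∈ B, y.1 ≠ y.2.1) (h : ∀ x ∈ A, ∀ y ∈ B, F0 x y = true) :
    (∃ i : Fin 32, (∀ x ∈ A, i = x.1 ∨ i = x.2.1) ∧ ∀ y ∈ B, i = y.1 ∨ i = y.2.1) ∨
      (Finset.univ.filter (fun ω : Smp => xA ω ∈ A ∧ ∃ b, yB ω b ∈ B)).card * 124 ≤
        Fintype.card Smp := by
  classical
  set A' : Finset (Finset (Fin 32)) := A.image (fun x => ({x.1, x.2.1} : Finset (Fin 32))) with hA'
  set B' : Finset (Finset (Fin 32)) := B.image (fun y => ({y.1, y.2.1} : Finset (Fin 32))) with hB'
  have hA2 : ∀ s ∈ A', s.card = 2 := by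
    intro s hs
    rw [hA', Finset.mem_image] at hs
    obtain ⟨x, hx, rfl⟩ := hs
    exact Finset.card_pair (hA x hx)
  have hB2 : ∀ s ∈ B', s.card = 2 := by
    intro s hs
    rw [hB', Finset.mem_image] at hs
    obtain ⟨x, hx, rfl⟩ := hs
    exact Finset.card_pair (hB x hx)
  by_cases h5A : 5 ≤ A'.card
  · by_cases h5B : 5 ≤ B'.card
    · left
      obtain ⟨i, h1, h2⟩ := star_of_five A' B' hA2 hB2 (by
        intro s hs t ht
        rw [hA', Finset.mem_image] at hs
        rw [hB', Finset.mem_image] at ht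
        obtain ⟨x, hx, rfl⟩ := hs
        obtain ⟨y, hy, rfl⟩ := ht
        have := h x hx y hy
        rw [F0, decide_eq_true_iff] at this
        rcases this with h3 | h3 | h3 | h3
        · exact ⟨x.1, by simp, by simp [h3]⟩
        · exact ⟨x.1, by simp, by simp [h3]⟩
        · exact ⟨x.2.1, by simp, by simp [h3]⟩
        · exact ⟨x.2.1, by simp, by simp [h3]⟩) h5A h5B
      refine ⟨i, ?_, ?_⟩
      · intro x hx
        have := h1 _ (Finset.mem_image_of_mem _ hx)
        simpa using this
      · intro y hy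
        have := h2 _ (Finset.mem_image_of_mem _ hy)
        simpa using this
    · right
      refine card_filter_imp_le _ _ _ _ (count_small 2 (by decide) B' (by omega) hB2) ?_
      rintro ω ⟨-, b, hb⟩
      have := Finset.mem_image_of_mem (fun y : Y0 => ({y.1, y.2.1} : Finset (Fin 32))) hb
      rw [hB']
      unfold yB at this
      split_ifs at this with h3
      · simpa [Finset.pair_comm] using this
      · simpa using this
  · right
    refine card_filter_imp_le _ _ _ _ (count_small 1 (by decide) A' (by omega) hA2) ?_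
    rintro ω ⟨hω, -⟩
    have := Finset.mem_image_of_mem (fun y : X0 => ({y.1, y.2.1} : Finset (Fin 32))) hω
    rw [hA']
    unfold xA at this
    split_ifs at this with h3
    · simpa [Finset.pair_comm] using this
    · simpa using this

end Pool.Agent.H32.Ext
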