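import Mathlib

/-! EXT Mass: the cut-and-paste estimate. -/

namespace Pool.Agent.H32.Ext

open scoped BigOperators

/-- `∑ √(a b)` close to one: distance of square roots. -/
theorem mass_dist {Λ : Type} (S : Finset Λ) (a b : Λ → ℝ) (ha : ∀ π, 0 ≤ a π) (hb : ∀ π, 0 ≤ b π)
    (sa : ∑ π ∈ S, a π ≤ 1) (sb : ∑ π ∈ S, b π ≤ 1) (f : ℝ)
    (hf : 1 - f ≤ ∑ π ∈ S, Real.sqrt (a π * b π)) :
    ∑ π ∈ S, (Real.sqrt (a π) - Real.sqrt (b π)) ^ 2 ≤ 2 * f := by
  have h1 : ∀ π, (Real.sqrt (a π) - Real.sqrt (b π)) ^ 2 = a π + b π -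
      2 * Real.sqrt (a π * b π) := by
    intro π
    rw [Real.sqrt_mul (ha π), sub_sq, Real.sq_sqrt (ha π), Real.sq_sqrt (hb π)]
    ring
  rw [Finset.sum_congr rfl fun π _ => h1 π, Finset.sum_sub_distrib, Finset.sum_add_distrib,
    ← Finset.mul_sum]
  linarith

/-- The cut-and-paste estimate for the inner product. -/
theorem mass_inner {Λ : Type} (S : Finset Λ) (a b l : Λ → ℝ) (ha : ∀ π, 0 ≤ a π)
    (hb : ∀ π, 0 ≤ b π) (hl : ∀ π, 0 ≤ l π) (sa : ∑ π ∈ S, a π ≤ 1) (sb : ∑ π ∈ S, b π ≤ 1)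
    (sl : ∑ π ∈ S, l π ≤ 1) (f f' : ℝ)
    (hf : 1 - f ≤ ∑ π ∈ S, Real.sqrt (a π * l π))
    (hf' : 1 - f' ≤ ∑ π ∈ S, Real.sqrt (b π * l π)) :
    1 - 3 * (f + f') ≤ ∑ π ∈ S, Real.sqrt (a π * b π) := by
  have d1 := mass_dist S a l ha hl sa sl f hf
  have d2 := mass_dist S b l hb hl sb sl f' hf'
  -- lower bounds of the masses
  have m1 : ∀ (c : Λ → ℝ) (g : ℝ), (∀ π, 0 ≤ c π) → (1 - g ≤ ∑ π ∈ S, Real.sqrt (c π * l π)) →
      1 - 2 * g ≤ ∑ π ∈ S, c π := by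
    intro c g hc hg
    by_cases hg1 : 1 - g ≤ 0
    · have : 0 ≤ ∑ π ∈ S, c π := Finset.sum_nonneg fun π _ => hc π
      linarith
    · push Not at hg1
      have h1 : (∑ π ∈ S, Real.sqrt (c π) * Real.sqrt (l π)) ^ 2 ≤
          (∑ π ∈ S, Real.sqrt (c π) ^ 2) * ∑ π ∈ S, Real.sqrt (l π) ^ 2 :=
        Finset.sum_mul_sq_le_sq_mul_sq _ _ _
      have h2 : ∑ π ∈ S, Real.sqrt (c π) ^ 2 = ∑ π ∈ S, c π :=
        Finset.sum_congr rfl fun π _ => Real.sq_sqrt (hc π)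
      have h3 : ∑ π ∈ S, Real.sqrt (l π) ^ 2 = ∑ π ∈ S, l π :=
        Finset.sum_congr rfl fun π _ => Real.sq_sqrt (hl π)
      have h4 : ∑ π ∈ S, Real.sqrt (c π) * Real.sqrt (l π) = ∑ π ∈ S, Real.sqrt (c π * l π) :=
        Finset.sum_congr rfl fun π _ => (Real.sqrt_mul (hc π) _).symm
      rw [h2, h3, h4] at h1
      have h5 : 0 ≤ ∑ π ∈ S, c π := Finset.sum_nonneg fun π _ => hc π
      have h6 : (∑ π ∈ S, c π) * ∑ π ∈ S, l π ≤ ∑ π ∈ S, c π := mul_le_of_le_one_right h5 sl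
      have h7 : (1 - g) ^ 2 ≤ (∑ π ∈ S, Real.sqrt (c π * l π)) ^ 2 :=
        pow_le_pow_left₀ hg1.le hg 2
      nlinarith [sq_nonneg g]
  have ma := m1 a f ha hf
  have mb := m1 b f' hb hf'
  have h1 : ∀ π, (Real.sqrt (a π) - Real.sqrt (b π)) ^ 2 = a π + b π -
      2 * Real.sqrt (a π * b π) := by
    intro π
    rw [Real.sqrt_mul (ha π), sub_sq, Real.sq_sqrt (ha π), Real.sq_sqrt (hb π)]
    ring
  have h2 : ∑ π ∈ S, (Real.sqrt (a π) - Real.sqrt (b π)) ^ 2 ≤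
      ∑ π ∈ S, (2 * (Real.sqrt (a π) - Real.sqrt (l π)) ^ 2 +
        2 * (Real.sqrt (b π) - Real.sqrt (l π)) ^ 2) := by
    refine Finset.sum_le_sum fun π _ => ?_
    nlinarith [sq_nonneg ((Real.sqrt (a π) - Real.sqrt (l π)) +
      (Real.sqrt (b π) - Real.sqrt (l π)))]
  rw [Finset.sum_congr rfl fun π _ => h1 π, Finset.sum_sub_distrib, Finset.sum_add_distrib,
    ← Finset.mul_sum, Finset.sum_add_distrib, ← Finset.mul_sum, ← Finset.mul_sum] at h2
  linarith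

/-- Lower bound for the mass. -/
theorem mass_ge {Λ : Type} (S : Finset Λ) (c l : Λ → ℝ) (hc : ∀ π, 0 ≤ c π) (hl : ∀ π, 0 ≤ l π)
    (sl : ∑ π ∈ S, l π ≤ 1) (g : ℝ) (hg : 1 - g ≤ ∑ π ∈ S, Real.sqrt (c π * l π)) :
    1 - 2 * g ≤ ∑ π ∈ S, c π := by
  by_cases hg1 : 1 - g ≤ 0
  · have : 0 ≤ ∑ π ∈ S, c π := Finset.sum_nonneg fun π _ => hc π
    linarith
  · push Not at hg1
    have h1 : (∑ π ∈ S, Real.sqrt (c π) * Real.sqrt (l π)) ^ 2 ≤
        (∑ π ∈ S, Real.sqrt (c π) ^ 2) * ∑ π ∈ S, Real.sqrt (l π) ^ 2 :=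
      Finset.sum_mul_sq_le_sq_mul_sq _ _ _
    have h2 : ∑ π ∈ S, Real.sqrt (c π) ^ 2 = ∑ π ∈ S, c π :=
      Finset.sum_congr rfl fun π _ => Real.sq_sqrt (hc π)
    have h3 : ∑ π ∈ S, Real.sqrt (l π) ^ 2 = ∑ π ∈ S, l π :=
      Finset.sum_congr rfl fun π _ => Real.sq_sqrt (hl π)
    have h4 : ∑ π ∈ S, Real.sqrt (c π) * Real.sqrt (l π) = ∑ π ∈ S, Real.sqrt (c π * l π) :=
      Finset.sum_congr rfl fun π _ => (Real.sqrt_mul (hc π) _).symm
    rw [h2, h3, h4] at h1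
    have h5 : 0 ≤ ∑ π ∈ S, c π := Finset.sum_nonneg fun π _ => hc π
    have h6 : (∑ π ∈ S, c π) * ∑ π ∈ S, l π ≤ ∑ π ∈ S, c π := mul_le_of_le_one_right h5 sl
    have h7 : (1 - g) ^ 2 ≤ (∑ π ∈ S, Real.sqrt (c π * l π)) ^ 2 :=
      pow_le_pow_left₀ hg1.le hg 2
    nlinarith [sq_nonneg g]

/-- The error is nonnegative. -/
theorem mass_err {Λ : Type} (S : Finset Λ) (c l : Λ → ℝ) (hc : ∀ π, 0 ≤ c π) (hl : ∀ π, 0 ≤ l π)
    (sc : ∑ π ∈ S, c π ≤ 1) (sl : ∑ π ∈ S, l π ≤ 1) (g : ℝ)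
    (hg : 1 - g ≤ ∑ π ∈ S, Real.sqrt (c π * l π)) : 0 ≤ g := by
  have h1 := mass_dist S c l hc hl sc sl g hg
  have h2 : 0 ≤ ∑ π ∈ S, (Real.sqrt (c π) - Real.sqrt (l π)) ^ 2 :=
    Finset.sum_nonneg fun π _ => sq_nonneg _
  linarith

/-- Donsker-Varadhan. -/
theorem mass_dv {Λ : Type} [Fintype Λ] (P Q g : Λ → ℝ) (hP : ∀ π, 0 ≤ P π) (hQ : ∀ π, 0 ≤ Q π)
    (sP : ∑ π, P π = 1) (hac : ∀ π, Q π = 0 → P π = 0) (Z : ℝ) (hZ : 0 < Z)
    (hZ' : ∑ π, Q π * Real.exp (g π) ≤ Z) :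
    ∑ π, P π * g π ≤ ∑ π, P π * Real.log (P π / Q π) + Real.log Z := by
  have h1 : ∀ π, P π * g π - P π * Real.log (P π / Q π) - P π * Real.log Z ≤
      Q π * Real.exp (g π) / Z - P π := by
    intro π
    rcases (hP π).eq_or_lt with h | h
    · rw [← h]
      simp only [zero_mul, sub_zero]
      exact div_nonneg (mul_nonneg (hQ π) (Real.exp_pos _).le) hZ.le
    · have hq : 0 < Q π := by
        rcases (hQ π).eq_or_lt with h2 | h2
        · exact absurd (hac π h2.symm) h.ne'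
        · exact h2
      have hy : 0 < Q π * Real.exp (g π) / (P π * Z) := by positivity
      have h2 := Real.log_le_sub_one_of_pos hy
      rw [Real.log_div (by positivity) (by positivity), Real.log_mul hq.ne' (Real.exp_pos _).ne',
        Real.log_exp, Real.log_mul h.ne' hZ.ne'] at h2
      rw [Real.log_div h.ne' hq.ne']
      have h3 := mul_le_mul_of_nonneg_left h2 h.le
      have h4 : P π * (Q π * Real.exp (g π) / (P π * Z) - 1) = Q π * Real.exp (g π) / Z - P π := by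
        field_simp
      rw [h4] at h3
      linarith
  have h2 := Finset.sum_le_sum fun π (_ : π ∈ Finset.univ) => h1 π
  rw [Finset.sum_sub_distrib, Finset.sum_sub_distrib, Finset.sum_sub_distrib, ← Finset.sum_mul,
    ← Finset.sum_div, sP, one_mul] at h2
  have h3 : (∑ π, Q π * Real.exp (g π)) / Z ≤ 1 := by
    rw [div_le_one hZ]
    exact hZ'
  linarith

theorem mass_lower {Λ : Type} [Fintype Λ] (S : Finset Λ) (u1 us m m' w L : Λ → ℝ)
    (hu1 : ∀ π, 0 ≤ u1 π) (hus : ∀ π, 0 ≤ us π) (hm : ∀ π, 0 ≤ m π) (hm' : ∀ π, 0 ≤ m' π)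
    (hw : ∀ π, 0 ≤ w π) (hL : ∀ π, 0 ≤ L π)
    (s1 : ∑ π, u1 π * m π = 1) (s2 : ∑ π, us π * m' π = 1) (s3 : ∑ π, u1 π * m' π = 1)
    (s4 : ∑ π, us π * m π = 1) (s5 : ∑ π, u1 π * w π = 1) (s6 : ∑ π ∈ S, L π ≤ 1)
    (hac : ∀ π, m π = 0 → w π = 0) (f f' D φ : ℝ)
    (hf : 1 - f ≤ ∑ π ∈ S, Real.sqrt (u1 π * m π * L π))
    (hf' : 1 - f' ≤ ∑ π ∈ S, Real.sqrt (us π * m' π * L π))
    (hD : ∑ π, u1 π * w π * Real.log (u1 π * w π / (u1 π * m π)) ≤ D)
    (hφ : f + f' ≤ φ) (hφ0 : 0 < φ) (hφ1 : 1202 * φ < 1) :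
    81 / 100 * (1 - (D + Real.log 2) / Real.log (1 / (1202 * φ))) ≤ ∑ π ∈ S, us π * w π := by
  classical
  have ha : ∀ π, 0 ≤ u1 π * m π := fun π => mul_nonneg (hu1 π) (hm π)
  have hb : ∀ π, 0 ≤ us π * m' π := fun π => mul_nonneg (hus π) (hm' π)
  have sa : ∑ π ∈ S, u1 π * m π ≤ 1 := by
    rw [← s1]
    exact Finset.sum_le_sum_of_subset_of_nonneg (Finset.subset_univ _) fun π _ _ => ha π
  have sb : ∑ π ∈ S, us π * m' π ≤ 1 := by
    rw [← s2]
    exact Finset.sum_le_sum_of_subset_of_nonneg (Finset.subset_univ _) fun π _ _ => hb π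
  have hf0 := mass_err S _ L ha hL sa s6 f hf
  have hf'0 := mass_err S _ L hb hL sb s6 f' hf'
  have hinner := mass_inner S _ _ L ha hb hL sa sb s6 f f' hf hf'
  have hmass := mass_ge S _ L ha hL s6 f hf
  -- the geometric mean
  have hgm : 1 - 6 * φ ≤ ∑ π ∈ S, Real.sqrt (u1 π * us π) * m π := by
    have h1 : ∑ π ∈ S, Real.sqrt (u1 π * m π * (us π * m' π)) ≤
        ∑ π ∈ S, (Real.sqrt (u1 π * us π) * m π / 2 + Real.sqrt (u1 π * us π) * m' π / 2) := by
      refine Finset.sum_le_sum fun π _ => ?_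
      have e1 : u1 π * m π * (us π * m' π) = (u1 π * us π) * (m π * m' π) := by ring
      rw [e1, Real.sqrt_mul (mul_nonneg (hu1 π) (hus π))]
      have e2 : Real.sqrt (m π * m' π) ≤ (m π + m' π) / 2 := by
        rw [Real.sqrt_le_left (by have := hm π; have := hm' π; linarith)]
        nlinarith [sq_nonneg (m π - m' π)]
      have := mul_le_mul_of_nonneg_left e2 (Real.sqrt_nonneg (u1 π * us π))
      linarith
    have h2 : ∑ π ∈ S, Real.sqrt (u1 π * us π) * m' π ≤ 1 := by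
      have h3 : ∑ π ∈ S, Real.sqrt (u1 π * us π) * m' π ≤
          ∑ π, (u1 π * m' π / 2 + us π * m' π / 2) := by
        refine (Finset.sum_le_sum_of_subset_of_nonneg (Finset.subset_univ _) fun π _ _ =>
          mul_nonneg (Real.sqrt_nonneg _) (hm' π)).trans (Finset.sum_le_sum fun π _ => ?_)
        have e2 : Real.sqrt (u1 π * us π) ≤ (u1 π + us π) / 2 := by
          rw [Real.sqrt_le_left (by have := hu1 π; have := hus π; linarith)]
          nlinarith [sq_nonneg (u1 π - us π)]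
        have := mul_le_mul_of_nonneg_right e2 (hm' π)
        linarith
      rw [Finset.sum_add_distrib, ← Finset.sum_div, ← Finset.sum_div, s3, s2] at h3
      linarith
    rw [Finset.sum_add_distrib, ← Finset.sum_div, ← Finset.sum_div] at h1
    linarith
  -- the distance of the square roots of `u1` and `us`
  have hdist : ∑ π ∈ S, m π * (Real.sqrt (u1 π) - Real.sqrt (us π)) ^ 2 ≤ 12 * φ := by
    have h1 : ∀ π, m π * (Real.sqrt (u1 π) - Real.sqrt (us π)) ^ 2 = u1 π * m π + us π * m π -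
        2 * (Real.sqrt (u1 π * us π) * m π) := by
      intro π
      rw [Real.sqrt_mul (hu1 π), sub_sq, Real.sq_sqrt (hu1 π), Real.sq_sqrt (hus π)]
      ring
    rw [Finset.sum_congr rfl fun π _ => h1 π, Finset.sum_sub_distrib, Finset.sum_add_distrib,
      ← Finset.mul_sum]
    have h2 : ∑ π ∈ S, us π * m π ≤ 1 := by
      rw [← s4]
      exact Finset.sum_le_sum_of_subset_of_nonneg (Finset.subset_univ _) fun π _ _ =>
        mul_nonneg (hus π) (hm π)
    linarith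
  set Good := S.filter fun π => 81 / 100 * u1 π ≤ us π with hGood
  set Bd := (Finset.univ : Finset Λ) \ Good with hBd
  have hGS : Good ⊆ S := Finset.filter_subset _ _
  have hsplit : ∀ c : Λ → ℝ, ∑ π ∈ Bd, c π + ∑ π ∈ Good, c π = ∑ π, c π := fun c =>
    Finset.sum_sdiff (Finset.subset_univ _)
  -- mass of the bad set
  have hQ : ∑ π ∈ Bd, u1 π * m π ≤ 1202 * φ := by
    have h1 : ∑ π ∈ S \ Good, u1 π * m π ≤ 1200 * φ := by
      have h2 : ∑ π ∈ S \ Good, u1 π * m π ≤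
          ∑ π ∈ S \ Good, 100 * (m π * (Real.sqrt (u1 π) - Real.sqrt (us π)) ^ 2) := by
        refine Finset.sum_le_sum fun π hπ => ?_
        rw [Finset.mem_sdiff, hGood, Finset.mem_filter] at hπ
        have h3 : us π < 81 / 100 * u1 π := by
          by_contra hcon
          push Not at hcon
          exact hπ.2 ⟨hπ.1, hcon⟩
        have h4 : Real.sqrt (us π) ≤ 9 / 10 * Real.sqrt (u1 π) := by
          have h5 : Real.sqrt (us π) ≤ Real.sqrt ((9 / 10) ^ 2 * u1 π) :=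
            Real.sqrt_le_sqrt (by norm_num; linarith)
          rwa [Real.sqrt_mul (by norm_num), Real.sqrt_sq (by norm_num)] at h5
        have h6 : 0 ≤ Real.sqrt (u1 π) := Real.sqrt_nonneg _
        have h7 : (1 / 10 * Real.sqrt (u1 π)) ^ 2 ≤ (Real.sqrt (u1 π) - Real.sqrt (us π)) ^ 2 :=
          pow_le_pow_left₀ (by positivity) (by linarith) 2
        rw [mul_pow, Real.sq_sqrt (hu1 π)] at h7
        have h8 := mul_le_mul_of_nonneg_left h7 (hm π)
        linarith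
      have h3 : ∑ π ∈ S \ Good, 100 * (m π * (Real.sqrt (u1 π) - Real.sqrt (us π)) ^ 2) ≤
          ∑ π ∈ S, 100 * (m π * (Real.sqrt (u1 π) - Real.sqrt (us π)) ^ 2) :=
        Finset.sum_le_sum_of_subset_of_nonneg Finset.sdiff_subset fun π _ _ =>
          mul_nonneg (by norm_num) (mul_nonneg (hm π) (sq_nonneg _))
      have h4 : ∑ π ∈ S, 100 * (m π * (Real.sqrt (u1 π) - Real.sqrt (us π)) ^ 2) =
          100 * ∑ π ∈ S, m π * (Real.sqrt (u1 π) - Real.sqrt (us π)) ^ 2 := by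
        rw [← Finset.mul_sum]
      linarith
    have h2 : ∑ π ∈ S \ Good, u1 π * m π + ∑ π ∈ Good, u1 π * m π = ∑ π ∈ S, u1 π * m π :=
      Finset.sum_sdiff hGS
    have h3 := hsplit fun π => u1 π * m π
    rw [s1] at h3
    linarith
  -- change of measure
  set x := 1202 * φ with hx
  have hx0 : 0 < x := by positivity
  set t := Real.log (1 / x) with ht
  have ht0 : 0 < t := Real.log_pos (by rw [lt_div_iff₀ hx0]; linarith)
  have hdv := mass_dv (fun π => u1 π * w π) (fun π => u1 π * m π)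
    (fun π => if π ∈ Bd then t else 0) (fun π => mul_nonneg (hu1 π) (hw π)) ha s5 (by
      intro π h0
      rcases mul_eq_zero.1 h0 with h | h
      · simp [h]
      · simp [hac π h]) 2 (by norm_num) (by
      have h1 : ∀ π, u1 π * m π * Real.exp (if π ∈ Bd then t else 0) ≤
          u1 π * m π + (if π ∈ Bd then u1 π * m π * (1 / x) else 0) := by
        intro π
        split_ifs with h
        · rw [ht, Real.exp_log (by positivity)]
          have := ha π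
          linarith
        · simp
      refine (Finset.sum_le_sum fun π _ => h1 π).trans ?_
      rw [Finset.sum_add_distrib, s1, Finset.sum_ite_mem, Finset.univ_inter, ← Finset.sum_mul]
      have h2 : (∑ π ∈ Bd, u1 π * m π) * (1 / x) ≤ 1 := by
        rw [mul_one_div, div_le_one hx0]
        exact hQ
      linarith)
  have hPB : (∑ π ∈ Bd, u1 π * w π) * t ≤ D + Real.log 2 := by
    have h1 : ∑ π, u1 π * w π * (if π ∈ Bd then t else 0) = (∑ π ∈ Bd, u1 π * w π) * t := by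
      rw [Finset.sum_mul]
      simp only [mul_ite, mul_zero]
      rw [Finset.sum_ite_mem, Finset.univ_inter]
    rw [h1] at hdv
    linarith
  have hPB' : ∑ π ∈ Bd, u1 π * w π ≤ (D + Real.log 2) / t := by
    rw [le_div_iff₀ ht0]
    exact hPB
  have hfin : 81 / 100 * ∑ π ∈ Good, u1 π * w π ≤ ∑ π ∈ S, us π * w π := by
    rw [Finset.mul_sum]
    refine (Finset.sum_le_sum fun π hπ => ?_).trans
      (Finset.sum_le_sum_of_subset_of_nonneg hGS fun π _ _ => mul_nonneg (hus π) (hw π))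
    rw [hGood, Finset.mem_filter] at hπ
    have := mul_le_mul_of_nonneg_right hπ.2 (hw π)
    linarith
  have h3 := hsplit fun π => u1 π * w π
  rw [s5] at h3
  linarith

end Pool.Agent.H32.Ext
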