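import Pool.Agent.H32.Ext.Dec
import Pool.Agent.H32.Ext.Mass

/-! EXT Contra: the lower bound on the external information. -/

namespace Pool.Agent.H32.Ext

open scoped BigOperators

section generic

variable {G : Type} [Group G] [Fintype G]

theorem sum_shift (f : G × Bool × Bool → ℝ) (hf : ∀ ω, 0 ≤ f ω) (ρ : G) (a c : Bool) :
    ∑ g, f (g * ρ, a, c) ≤ ∑ ω, f ω := by
  have e1 : ∑ g, f (g * ρ, a, c) = ∑ g, f (g, a, c) :=
    Fintype.sum_equiv (Equiv.mulRight ρ) _ _ (fun g => rfl)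
  rw [e1, Fintype.sum_prod_type]
  apply Finset.sum_le_sum
  intro g _
  exact Finset.single_le_sum (f := fun p : Bool × Bool => f (g, p)) (fun p _ => hf _)
    (Finset.mem_univ (a, c))

theorem choose_g (f k : G × Bool × Bool → ℝ) (hf : ∀ ω, 0 ≤ f ω) (hk : ∀ ω, 0 ≤ k ω)
    {A B : ℝ} (hA : 0 < A) (hB : 0 < B) (hfA : avgG f ≤ A) (hkB : avgG k ≤ B)
    (ρ1 ρ2 ρ3 ρ4 : G) (a1 a2 a3 a4 c1 c2 c3 c4 : Bool) :
    ∃ g : G, f (g * ρ1, a1, c1) + f (g * ρ2, a2, c2) + f (g * ρ3, a3, c3) + f (g * ρ4, a4, c4) ≤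
      32 * A ∧ k (g * ρ1, a1, c1) + k (g * ρ3, a3, c3) ≤ 16 * B := by
  have hN : (0 : ℝ) < (Fintype.card G : ℝ) := by exact_mod_cast Fintype.card_pos
  have hc : (Fintype.card (G × Bool × Bool) : ℝ) = (Fintype.card G : ℝ) * 4 := by
    rw [Fintype.card_prod, Fintype.card_prod, Fintype.card_bool]; push_cast; ring
  have hsf : ∑ ω, f ω ≤ (Fintype.card G : ℝ) * 4 * A := by
    unfold avgG at hfA
    rw [hc, div_le_iff₀ (by positivity)] at hfA
    linarith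
  have hsk : ∑ ω, k ω ≤ (Fintype.card G : ℝ) * 4 * B := by
    unfold avgG at hkB
    rw [hc, div_le_iff₀ (by positivity)] at hkB
    linarith
  set T : G → ℝ := fun g =>
    (f (g * ρ1, a1, c1) + f (g * ρ2, a2, c2) + f (g * ρ3, a3, c3) + f (g * ρ4, a4, c4)) / (16 * A) +
      (k (g * ρ1, a1, c1) + k (g * ρ3, a3, c3)) / (8 * B) with hT
  have hsT : ∑ g, T g ≤ ∑ _g : G, (2 : ℝ) := by
    rw [Finset.sum_const, nsmul_eq_mul, Finset.card_univ, hT]
    rw [Finset.sum_add_distrib, ← Finset.sum_div, ← Finset.sum_div, Finset.sum_add_distrib,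
      Finset.sum_add_distrib, Finset.sum_add_distrib, Finset.sum_add_distrib]
    have b1 := sum_shift f hf ρ1 a1 c1
    have b2 := sum_shift f hf ρ2 a2 c2
    have b3 := sum_shift f hf ρ3 a3 c3
    have b4 := sum_shift f hf ρ4 a4 c4
    have d1 := sum_shift k hk ρ1 a1 c1
    have d3 := sum_shift k hk ρ3 a3 c3
    have i1 : (∑ g, f (g * ρ1, a1, c1) + ∑ g, f (g * ρ2, a2, c2) + ∑ g, f (g * ρ3, a3, c3) +
        ∑ g, f (g * ρ4, a4, c4)) / (16 * A) ≤ (Fintype.card G : ℝ) := by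
      rw [div_le_iff₀ (by positivity)]
      linarith
    have i2 : (∑ g, k (g * ρ1, a1, c1) + ∑ g, k (g * ρ3, a3, c3)) / (8 * B) ≤
        (Fintype.card G : ℝ) := by
      rw [div_le_iff₀ (by positivity)]
      linarith
    linarith
  obtain ⟨g, _, hg⟩ := Finset.exists_le_of_sum_le Finset.univ_nonempty hsT
  refine ⟨g, ?_, ?_⟩
  · have : 0 ≤ (k (g * ρ1, a1, c1) + k (g * ρ3, a3, c3)) / (8 * B) := by
      have := hk (g * ρ1, a1, c1); have := hk (g * ρ3, a3, c3); positivity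
    have h2 : (f (g * ρ1, a1, c1) + f (g * ρ2, a2, c2) + f (g * ρ3, a3, c3) +
      f (g * ρ4, a4, c4)) / (16 * A) ≤ 2 := by linarith
    rw [div_le_iff₀ (by positivity)] at h2
    linarith
  · have : 0 ≤ (f (g * ρ1, a1, c1) + f (g * ρ2, a2, c2) + f (g * ρ3, a3, c3) +
      f (g * ρ4, a4, c4)) / (16 * A) := by
      have := hf (g * ρ1, a1, c1); have := hf (g * ρ2, a2, c2)
      have := hf (g * ρ3, a3, c3); have := hf (g * ρ4, a4, c4)
      positivity
    have h2 : (k (g * ρ1, a1, c1) + k (g * ρ3, a3, c3)) / (8 * B) ≤ 2 := by linarith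
    rw [div_le_iff₀ (by positivity)] at h2
    linarith

end generic

section main

variable {Λ : Type} [Fintype Λ] {u : Λ → X0 → ℝ} {q : Λ → Y0 → ℝ}

/-- mixture of two columns -/
def mix (ε : ℝ) (q : Λ → Y0 → ℝ) (y0 y1 : Y0) (π : Λ) : ℝ := (1 - ε) * q π y0 + ε * q π y1

theorem mix_nonneg (hP : IsProt u q) {ε : ℝ} (h0 : 0 < ε) (h1 : ε < 1) (y0 y1 : Y0) (π : Λ) :
    0 ≤ mix ε q y0 y1 π := by
  unfold mix
  have := hP.hq π y0
  have := hP.hq π y1
  have : 0 < 1 - ε := by linarith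
  positivity

theorem sum_mix (hP : IsProt u q) (ε : ℝ) (x : X0) (y0 y1 : Y0) :
    ∑ π, u π x * mix ε q y0 y1 π = 1 := by
  have : ∀ π, u π x * mix ε q y0 y1 π = (1 - ε) * (u π x * q π y0) + ε * (u π x * q π y1) := by
    intro π; unfold mix; ring
  simp only [this]
  rw [Finset.sum_add_distrib, ← Finset.mul_sum, ← Finset.mul_sum, hP.hsum, hP.hsum]; ring

theorem mix_zero (hP : IsProt u q) {ε : ℝ} (h0 : 0 < ε) (h1 : ε < 1) (y0 y1 : Y0) (π : Λ)
    (h : mix ε q y0 y1 π = 0) : q π y1 = 0 := by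
  unfold mix at h
  have a0 := hP.hq π y0
  have a1 := hP.hq π y1
  have : 0 ≤ (1 - ε) * q π y0 := mul_nonneg (by linarith) a0
  have h2 : ε * q π y1 ≤ 0 := by linarith
  have h3 : q π y1 ≤ 0 := by
    by_contra hcon
    push Not at hcon
    have := mul_pos h0 hcon
    linarith
  linarith

/-- one application of the mass estimate -/
theorem one_side (hP : IsProt u q) {ε : ℝ} (h0 : 0 < ε) (h1 : ε < 1) (S : Finset Λ)
    (hS : ∑ π ∈ S, 32 * Pbar ε u q π ≤ 1) (x1 xs : X0) (y0 yn y0' yn' : Y0) (f f' D φ : ℝ)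
    (hf : 1 - f ≤ ∑ π ∈ S, Real.sqrt ((u π x1 * mix ε q y0 yn π) * (32 * Pbar ε u q π)))
    (hf' : 1 - f' ≤ ∑ π ∈ S, Real.sqrt ((u π xs * mix ε q y0' yn' π) * (32 * Pbar ε u q π)))
    (hD : ∑ π, u π x1 * q π yn * Real.log (u π x1 * q π yn / (u π x1 * mix ε q y0 yn π)) ≤ D)
    (hφ : f + f' ≤ φ) (hφ0 : 0 < φ) (hφ1 : 1202 * φ < 1) :
    81 / 100 * (1 - (D + Real.log 2) / Real.log (1 / (1202 * φ))) ≤
      ∑ π ∈ S, u π xs * q π yn :=
  mass_lower S (fun π => u π x1) (fun π => u π xs) (mix ε q y0 yn) (mix ε q y0' yn')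
    (fun π => q π yn) (fun π => 32 * Pbar ε u q π) (fun π => hP.hu π x1) (fun π => hP.hu π xs)
    (mix_nonneg hP h0 h1 _ _) (mix_nonneg hP h0 h1 _ _) (fun π => hP.hq π yn)
    (fun π => mul_nonneg (by norm_num) (Pbar_nonneg hP h0 h1 π))
    (sum_mix hP ε _ _ _) (sum_mix hP ε _ _ _) (sum_mix hP ε _ _ _) (sum_mix hP ε _ _ _)
    (hP.hsum _ _) hS (fun π => mix_zero hP h0 h1 y0 yn π) f f' D φ hf hf' hD hφ hφ0 hφ1

omit [Fintype Λ] in
theorem Pm_mix (ε : ℝ) (ω : Smp) (π : Λ) :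
    Pm ε u q ω π = u π (xA ω) * mix ε q (yB ω (some ω.2.1)) (yB ω none) π := by
  unfold Pm P0 P1 mix; ring

/-- the four permutations -/
def r1 : Equiv.Perm (Fin 32) := Equiv.swap 1 2
/-- second permutation -/
def r2 : Equiv.Perm (Fin 32) := Equiv.swap 2 3
/-- third permutation -/
def r3 : Equiv.Perm (Fin 32) := Equiv.swap 0 1 * Equiv.swap 1 2
/-- fourth permutation -/
def r4 : Equiv.Perm (Fin 32) := Equiv.swap 0 1 * Equiv.swap 2 3

theorem r1_0 : r1 0 = 0 := by decide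
theorem r1_1 : r1 1 = 2 := by decide
theorem r1_2 : r1 2 = 1 := by decide
theorem r2_0 : r2 0 = 0 := by decide
theorem r2_1 : r2 1 = 1 := by decide
theorem r2_2 : r2 2 = 3 := by decide
theorem r3_0 : r3 0 = 1 := by decide
theorem r3_1 : r3 1 = 2 := by decide
theorem r3_2 : r3 2 = 0 := by decide
theorem r4_0 : r4 0 = 1 := by decide
theorem r4_1 : r4 1 = 0 := by decide
theorem r4_2 : r4 2 = 3 := by decide

theorem e1_x (σ : Equiv.Perm (Fin 32)) : xA (σ * r1, false, false) = (σ 0, σ 2, false) := by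
  simp only [xA, Equiv.Perm.mul_apply, r1_0, r1_1]; rfl
theorem e1_y (σ : Equiv.Perm (Fin 32)) (b : Option Bool) :
    yB (σ * r1, false, false) b = (σ 0, σ 1, b) := by
  simp only [yB, Equiv.Perm.mul_apply, r1_0, r1_2]; rfl
theorem e2_x (σ : Equiv.Perm (Fin 32)) : xA (σ * r2, false, false) = (σ 0, σ 1, false) := by
  simp only [xA, Equiv.Perm.mul_apply, r2_0, r2_1]; rfl
theorem e2_y (σ : Equiv.Perm (Fin 32)) (b : Option Bool) :
    yB (σ * r2, false, false) b = (σ 0, σ 3, b) := by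
  simp only [yB, Equiv.Perm.mul_apply, r2_0, r2_2]; rfl
theorem e3_x (σ : Equiv.Perm (Fin 32)) : xA (σ * r3, true, false) = (σ 1, σ 2, true) := by
  simp only [xA, Equiv.Perm.mul_apply, r3_0, r3_1]; rfl
theorem e3_y (σ : Equiv.Perm (Fin 32)) (b : Option Bool) :
    yB (σ * r3, true, false) b = (σ 0, σ 1, b) := by
  simp only [yB, Equiv.Perm.mul_apply, r3_0, r3_2]; rfl
theorem e4_x (σ : Equiv.Perm (Fin 32)) : xA (σ * r4, false, true) = (σ 0, σ 1, false) := by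
  simp only [xA, Equiv.Perm.mul_apply, r4_0, r4_1]; rfl
theorem e4_y (σ : Equiv.Perm (Fin 32)) (b : Option Bool) :
    yB (σ * r4, false, true) b = (σ 1, σ 3, b) := by
  simp only [yB, Equiv.Perm.mul_apply, r4_0, r4_2]; rfl

theorem small400 : (2⁻¹ : ℝ) ^ 400 * (1202 * 320) < 1 := by
  have h : (2⁻¹ : ℝ) ^ 400 ≤ 2⁻¹ ^ 20 :=
    pow_le_pow_of_le_one (by norm_num) (by norm_num) (by norm_num)
  have h2 : (2⁻¹ : ℝ) ^ 20 * (1202 * 320) < 1 := by norm_num
  exact lt_of_le_of_lt (mul_le_mul_of_nonneg_right h (by norm_num)) h2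

theorem phi_small {ε : ℝ} (hε : ε ≤ 2⁻¹ ^ 400) : 1202 * (320 * ε) < 1 := by
  have h1 : 1202 * (320 * ε) = ε * (1202 * 320) := by ring
  rw [h1]
  exact lt_of_le_of_lt (mul_le_mul_of_nonneg_right hε (by norm_num)) small400

theorem pow381 : (2 : ℝ) ^ 381 * 384640 * 2⁻¹ ^ 400 ≤ 1 := by
  have e : (2⁻¹ : ℝ) ^ 400 = 2⁻¹ ^ 381 * 2⁻¹ ^ 19 := by rw [← pow_add]
  have e2 : (2 : ℝ) ^ 381 * 2⁻¹ ^ 381 = 1 := by
    rw [← mul_pow, mul_inv_cancel₀ (by norm_num), one_pow]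
  have e3 : ∀ a b : ℝ, a * 384640 * (b * 2⁻¹ ^ 19) = (a * b) * (384640 * 2⁻¹ ^ 19) := by
    intro a b; ring
  rw [e, e3, e2]
  norm_num

theorem numeric {ε : ℝ} (h0 : 0 < ε) (h1 : ε ≤ 2⁻¹ ^ 400) :
    264 ≤ Real.log (1 / (1202 * (320 * ε))) := by
  have e1 : Real.log ((2 : ℝ) ^ 381) ≤ Real.log (1 / (1202 * (320 * ε))) := by
    apply Real.log_le_log (by positivity)
    rw [le_div_iff₀ (by positivity)]
    have : ∀ a : ℝ, a * (1202 * (320 * ε)) = (a * 384640) * ε := by intro a; ring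
    rw [this]
    calc ((2 : ℝ) ^ 381 * 384640) * ε ≤ ((2 : ℝ) ^ 381 * 384640) * 2⁻¹ ^ 400 :=
          mul_le_mul_of_nonneg_left h1 (by positivity)
      _ ≤ 1 := pow381
  rw [Real.log_pow] at e1
  have := Real.log_two_gt_d9
  push_cast at e1
  linarith

theorem final_num {D1 D2 L : ℝ} (hD : D1 + D2 ≤ 160)
    (hL : 264 ≤ L)
    (h : 81 / 100 * (1 - (D1 + Real.log 2) / L) + 81 / 100 * (1 - (D2 + Real.log 2) / L) ≤ 1) :
    False := by
  have hL0 : 0 < L := by linarith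
  have e : 81 / 100 * (1 - (D1 + Real.log 2) / L) + 81 / 100 * (1 - (D2 + Real.log 2) / L) =
      81 / 100 * (2 - (D1 + D2 + 2 * Real.log 2) / L) := by ring
  have h2 : (D1 + D2 + 2 * Real.log 2) / L ≤ 162 / 264 := by
    rw [div_le_div_iff₀ hL0 (by norm_num)]
    have := Real.log_two_lt_d9
    nlinarith
  rw [e] at h
  linarith

theorem f_nonneg (hP : IsProt u q) {ε : ℝ} (h0 : 0 < ε) (h1 : ε < 1) (S : Finset Λ)
    (hS : ∑ π ∈ S, 32 * Pbar ε u q π ≤ 1) (ω : Smp) :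
    0 ≤ 1 - ∑ π ∈ S, Real.sqrt (Pm ε u q ω π * (32 * Pbar ε u q π)) := by
  have key : ∀ a b : ℝ, 0 ≤ a → 0 ≤ b → Real.sqrt (a * b) ≤ (a + b) / 2 := by
    intro a b ha hb
    rw [Real.sqrt_le_left (by linarith)]
    nlinarith [sq_nonneg (a - b)]
  have h2 : ∑ π ∈ S, Real.sqrt (Pm ε u q ω π * (32 * Pbar ε u q π)) ≤
      ∑ π ∈ S, (Pm ε u q ω π + 32 * Pbar ε u q π) / 2 :=
    Finset.sum_le_sum fun π _ => key _ _ (Pm_nonneg hP h0 h1 ω π)
      (mul_nonneg (by norm_num) (Pbar_nonneg hP h0 h1 π))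
  rw [← Finset.sum_div, Finset.sum_add_distrib] at h2
  have h3 : ∑ π ∈ S, Pm ε u q ω π ≤ 1 := by
    rw [← sum_Pm hP ε ω]
    exact Finset.sum_le_sum_of_subset_of_nonneg (Finset.subset_univ _)
      fun π _ _ => Pm_nonneg hP h0 h1 ω π
  linarith

theorem lower_bound (hP : IsProt u q) {ε : ℝ} (h0 : 0 < ε) (hε : ε ≤ 2⁻¹ ^ 400) :
    Real.log 32 + 10 * ε ≤ Info ε u q := by
  have h1 : ε < 1 := by
    refine lt_of_le_of_lt hε ?_
    exact pow_lt_one₀ (by norm_num) (by norm_num) (by norm_num)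
  by_contra hcon
  push Not at hcon
  obtain ⟨S, hdisj, hmass, hf, hk⟩ := dec h0 h1 hP hcon.le
  have hk10 : 10 * ε / ε = 10 := by field_simp
  rw [hk10] at hk
  set f : Smp → ℝ := fun ω => 1 - ∑ π ∈ S (ω.1 0),
        Real.sqrt (Pm ε u q ω π * (32 * Pbar ε u q π)) with hfdef
  set k : Smp → ℝ := fun ω => ∑ π, P1 u q ω π * Real.log (P1 u q ω π / Pm ε u q ω π) with hkdef
  have hf0 : ∀ ω, 0 ≤ f ω := fun ω => f_nonneg hP h0 h1 _ (hmass _) ω
  have hk0 : ∀ ω, 0 ≤ k ω := fun ω =>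
    kl_nonneg _ _ (P1_nonneg hP ω) (Pm_nonneg hP h0 h1 ω) (fun π => Pm_pos_of_P1 hP h0 h1)
      (sum_P1 hP ω) (sum_Pm hP ε ω)
  obtain ⟨σ, hσ1, hσ2⟩ := choose_g f k hf0 hk0 (A := 10 * ε) (B := 10) (by positivity)
    (by norm_num) hf hk r1 r2 r3 r4 false false true false false false false true
  have g1 := hf0 (σ * r1, false, false)
  have g2 := hf0 (σ * r2, false, false)
  have g3 := hf0 (σ * r3, true, false)
  have g4 := hf0 (σ * r4, false, true)
  have m1 := one_side hP h0 h1 (S (σ 0)) (hmass _) (σ 0, σ 2, false) (σ 0, σ 1, false)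
    (σ 0, σ 1, some false) (σ 0, σ 1, none) (σ 0, σ 3, some false) (σ 0, σ 3, none)
    (f (σ * r1, false, false)) (f (σ * r2, false, false)) (k (σ * r1, false, false)) (320 * ε)
    (by
      rw [hfdef]
      simp only [sub_sub_cancel, Pm_mix, e1_x, e1_y, Equiv.Perm.mul_apply, r1_0]
      exact le_rfl)
    (by
      rw [hfdef]
      simp only [sub_sub_cancel, Pm_mix, e2_x, e2_y, Equiv.Perm.mul_apply, r2_0]
      exact le_rfl)
    (by
      rw [hkdef]
      simp only [Pm_mix, P1, e1_x, e1_y]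
      exact le_rfl)
    (by linarith) (by positivity) (phi_small hε)
  have m3 := one_side hP h0 h1 (S (σ 1)) (hmass _) (σ 1, σ 2, true) (σ 0, σ 1, false)
    (σ 0, σ 1, some true) (σ 0, σ 1, none) (σ 1, σ 3, some false) (σ 1, σ 3, none)
    (f (σ * r3, true, false)) (f (σ * r4, false, true)) (k (σ * r3, true, false)) (320 * ε)
    (by
      rw [hfdef]
      simp only [sub_sub_cancel, Pm_mix, e3_x, e3_y, Equiv.Perm.mul_apply, r3_0]
      exact le_rfl)
    (by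
      rw [hfdef]
      simp only [sub_sub_cancel, Pm_mix, e4_x, e4_y, Equiv.Perm.mul_apply, r4_0]
      exact le_rfl)
    (by
      rw [hkdef]
      simp only [Pm_mix, P1, e3_x, e3_y]
      exact le_rfl)
    (by linarith) (by positivity) (phi_small hε)
  have hne : σ 0 ≠ σ 1 := by
    intro h
    exact absurd (σ.injective h) (by decide)
  have htot : ∑ π ∈ S (σ 0), u π (σ 0, σ 1, false) * q π (σ 0, σ 1, none) +
      ∑ π ∈ S (σ 1), u π (σ 0, σ 1, false) * q π (σ 0, σ 1, none) ≤ 1 := by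
    classical
    rw [← Finset.sum_union (hdisj _ _ hne), ← hP.hsum (σ 0, σ 1, false) (σ 0, σ 1, none)]
    exact Finset.sum_le_sum_of_subset_of_nonneg (Finset.subset_univ _)
      fun π _ _ => mul_nonneg (hP.hu _ _) (hP.hq _ _)
  refine final_num (D1 := k (σ * r1, false, false)) (D2 := k (σ * r3, true, false))
    (by linarith) (numeric h0 hε) ?_
  linarith

end main

end Pool.Agent.H32.Ext
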