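import Pool.Agent.H32.Ext.Comb

/-! EXT Dec: decomposition of the external information. -/

namespace Pool.Agent.H32.Ext

open scoped BigOperators

section aux

theorem sub_le_mul_log (p q : ℝ) (hp : 0 ≤ p) (hq : 0 < q) : p - q ≤ p * Real.log (p / q) := by
  rcases hp.eq_or_lt with h | h
  · subst h; simp; exact hq.le
  · have h1 := Real.log_le_sub_one_of_pos (div_pos hq h)
    have h2 : Real.log (p / q) = - Real.log (q / p) := by
      rw [← Real.log_inv, inv_div]
    rw [h2]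
    have h3 : p * Real.log (q / p) ≤ p * (q / p - 1) := mul_le_mul_of_nonneg_left h1 h.le
    have h4 : p * (q / p - 1) = q - p := by field_simp
    nlinarith

theorem two_sub_sqrt_le (p q : ℝ) (hp : 0 ≤ p) (hq : 0 < q) :
    2 * (p - Real.sqrt (p * q)) ≤ p * Real.log (p / q) := by
  rcases hp.eq_or_lt with h | h
  · subst h; simp
  · set a := Real.sqrt p with ha
    set b := Real.sqrt q with hb
    have ha0 : 0 < a := Real.sqrt_pos.mpr h
    have hb0 : 0 < b := Real.sqrt_pos.mpr hq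
    have hpa : p = a * a := (Real.mul_self_sqrt hp).symm
    have hqb : q = b * b := (Real.mul_self_sqrt hq.le).symm
    have hs : Real.sqrt (p * q) = a * b := by rw [Real.sqrt_mul hp]
    have hl : Real.log (p / q) = 2 * Real.log (a / b) := by
      rw [hpa, hqb, mul_div_mul_comm, Real.log_mul (by positivity) (by positivity)]; ring
    have h1 := sub_le_mul_log a b ha0.le hb0
    rw [hs, hl, hpa]
    nlinarith

end aux

section av

variable {Ω : Type} [Fintype Ω]

/-- average over a finite type -/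
noncomputable def avgG (f : Ω → ℝ) : ℝ := (∑ ω, f ω) / (Fintype.card Ω : ℝ)

theorem avgG_nonneg {f : Ω → ℝ} (h : ∀ ω, 0 ≤ f ω) : 0 ≤ avgG f :=
  div_nonneg (Finset.sum_nonneg fun ω _ => h ω) (Nat.cast_nonneg _)

theorem avgG_mono {f g : Ω → ℝ} (h : ∀ ω, f ω ≤ g ω) : avgG f ≤ avgG g :=
  div_le_div_of_nonneg_right (Finset.sum_le_sum fun ω _ => h ω) (Nat.cast_nonneg _)

theorem avgG_add (f g : Ω → ℝ) : avgG (fun ω => f ω + g ω) = avgG f + avgG g := by
  unfold avgG; rw [Finset.sum_add_distrib, add_div]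

theorem avgG_sub (f g : Ω → ℝ) : avgG (fun ω => f ω - g ω) = avgG f - avgG g := by
  unfold avgG; rw [Finset.sum_sub_distrib, sub_div]

theorem avgG_mul (c : ℝ) (f : Ω → ℝ) : avgG (fun ω => c * f ω) = c * avgG f := by
  unfold avgG; rw [← Finset.mul_sum, mul_div_assoc]

theorem avgG_sum {Λ : Type} (s : Finset Λ) (f : Λ → Ω → ℝ) :
    avgG (fun ω => ∑ π ∈ s, f π ω) = ∑ π ∈ s, avgG (f π) := by
  unfold avgG; rw [Finset.sum_comm, Finset.sum_div]

variable [Nonempty Ω]

theorem avgG_const (c : ℝ) : avgG (fun _ : Ω => c) = c := by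
  unfold avgG
  have h : (0 : ℝ) < (Fintype.card Ω : ℝ) := by exact_mod_cast Fintype.card_pos
  rw [Finset.sum_const, nsmul_eq_mul, Finset.card_univ]
  field_simp

theorem avgG_eq_zero {f : Ω → ℝ} (h : ∀ ω, 0 ≤ f ω) (h0 : avgG f = 0) (ω : Ω) : f ω = 0 := by
  have hN : (0 : ℝ) < (Fintype.card Ω : ℝ) := by exact_mod_cast Fintype.card_pos
  unfold avgG at h0
  rw [div_eq_zero_iff] at h0
  rcases h0 with h0 | h0
  · exact (Finset.sum_eq_zero_iff_of_nonneg fun ω _ => h ω).mp h0 ω (Finset.mem_univ _)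
  · exact absurd h0 hN.ne'

theorem avgG_support {f : Ω → ℝ} (h : ∀ ω, 0 ≤ f ω) (hF : 0 < avgG f) (T : Finset Ω)
    (hT : ∀ ω, ω ∉ T → f ω = 0) (K : ℝ) (hK : 0 < K)
    (hc : (T.card : ℝ) * K ≤ (Fintype.card Ω : ℝ)) :
    avgG f * Real.log K ≤ avgG (fun ω => f ω * Real.log (f ω / avgG f)) := by
  set F := avgG f with hFdef
  have hN : (0 : ℝ) < (Fintype.card Ω : ℝ) := by exact_mod_cast Fintype.card_pos
  have hsum : ∑ ω, f ω = (Fintype.card Ω : ℝ) * F := by
    rw [hFdef]; unfold avgG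
    field_simp
  have key : ∀ ω ∈ T, f ω - K * F + f ω * Real.log K ≤ f ω * Real.log (f ω / F) := by
    intro ω _
    rcases (h ω).eq_or_lt with h0 | h0
    · rw [← h0]; simp; positivity
    · have h1 := sub_le_mul_log (f ω) (K * F) h0.le (by positivity)
      have h2 : Real.log (f ω / F) = Real.log (f ω / (K * F)) + Real.log K := by
        rw [← Real.log_mul (by positivity) hK.ne']
        congr 1
        field_simp
      rw [h2]; nlinarith
  have hTs : ∑ ω ∈ T, f ω = ∑ ω, f ω := by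
    apply Finset.sum_subset (Finset.subset_univ _)
    intro ω _ hω; exact hT ω hω
  have hTs' : ∑ ω ∈ T, f ω * Real.log (f ω / F) = ∑ ω, f ω * Real.log (f ω / F) := by
    apply Finset.sum_subset (Finset.subset_univ _)
    intro ω _ hω; rw [hT ω hω]; simp
  have h3 := Finset.sum_le_sum key
  have hTl : ∑ ω ∈ T, f ω * Real.log K = (Fintype.card Ω : ℝ) * F * Real.log K := by
    rw [← Finset.sum_mul, hTs, hsum]
  have h5 : ∑ ω ∈ T, (f ω - K * F + f ω * Real.log K) =
      (Fintype.card Ω : ℝ) * F - (T.card : ℝ) * (K * F) + (Fintype.card Ω : ℝ) * F * Real.log K := by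
    rw [Finset.sum_add_distrib, Finset.sum_sub_distrib, hTs, hsum, hTl,
      Finset.sum_const, nsmul_eq_mul]
  rw [hTs', h5] at h3
  have h4 : (T.card : ℝ) * (K * F) ≤ (Fintype.card Ω : ℝ) * F := by
    have := mul_le_mul_of_nonneg_right hc hF.le
    nlinarith
  show F * Real.log K ≤ (∑ ω, f ω * Real.log (f ω / F)) / (Fintype.card Ω : ℝ)
  rw [le_div_iff₀ hN]
  nlinarith

theorem avg_eq (f : Smp → ℝ) : avg f = avgG f := rfl

end av

section main

variable {Λ : Type} [Fintype Λ] {u : Λ → X0 → ℝ} {q : Λ → Y0 → ℝ}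

theorem P0_nonneg (hP : IsProt u q) (ω : Smp) (π : Λ) : 0 ≤ P0 u q ω π :=
  mul_nonneg (hP.hu _ _) (hP.hq _ _)

theorem P1_nonneg (hP : IsProt u q) (ω : Smp) (π : Λ) : 0 ≤ P1 u q ω π :=
  mul_nonneg (hP.hu _ _) (hP.hq _ _)

theorem sum_P0 (hP : IsProt u q) (ω : Smp) : ∑ π, P0 u q ω π = 1 := hP.hsum _ _

theorem sum_P1 (hP : IsProt u q) (ω : Smp) : ∑ π, P1 u q ω π = 1 := hP.hsum _ _

theorem Pm_nonneg (hP : IsProt u q) {ε : ℝ} (h0 : 0 < ε) (h1 : ε < 1) (ω : Smp) (π : Λ) :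
    0 ≤ Pm ε u q ω π := by
  unfold Pm
  have := P0_nonneg hP ω π
  have := P1_nonneg hP ω π
  have : 0 < 1 - ε := by linarith
  positivity

theorem sum_Pm (hP : IsProt u q) (ε : ℝ) (ω : Smp) : ∑ π, Pm ε u q ω π = 1 := by
  unfold Pm
  rw [Finset.sum_add_distrib, ← Finset.mul_sum, ← Finset.mul_sum, sum_P0 hP, sum_P1 hP]; ring

theorem Pbar_nonneg (hP : IsProt u q) {ε : ℝ} (h0 : 0 < ε) (h1 : ε < 1) (π : Λ) :
    0 ≤ Pbar ε u q π := avgG_nonneg fun ω => Pm_nonneg hP h0 h1 ω π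

theorem sum_Pbar (hP : IsProt u q) (ε : ℝ) : ∑ π, Pbar ε u q π = 1 := by
  unfold Pbar
  simp only [avg_eq]
  rw [← avgG_sum]
  simp only [sum_Pm hP]
  exact avgG_const 1

theorem Pm_pos_of_P0 (hP : IsProt u q) {ε : ℝ} (h0 : 0 < ε) (h1 : ε < 1) {ω : Smp} {π : Λ}
    (h : 0 < P0 u q ω π) : 0 < Pm ε u q ω π := by
  unfold Pm
  have := P1_nonneg hP ω π
  have : 0 < 1 - ε := by linarith
  positivity

theorem Pm_pos_of_P1 (hP : IsProt u q) {ε : ℝ} (h0 : 0 < ε) (h1 : ε < 1) {ω : Smp} {π : Λ}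
    (h : 0 < P1 u q ω π) : 0 < Pm ε u q ω π := by
  unfold Pm
  have := P0_nonneg hP ω π
  have : 0 < 1 - ε := by linarith
  positivity

theorem Pbar_pos (hP : IsProt u q) {ε : ℝ} (h0 : 0 < ε) (h1 : ε < 1) {ω : Smp} {π : Λ}
    (h : 0 < Pm ε u q ω π) : 0 < Pbar ε u q π := by
  rcases (Pbar_nonneg hP h0 h1 π).eq_or_lt with h2 | h2
  · have := avgG_eq_zero (fun ω => Pm_nonneg hP h0 h1 ω π) h2.symm ω
    linarith
  · exact h2

open Classical in
/-- Alice's pairs at the leaf `π` -/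
noncomputable def Aset (u : Λ → X0 → ℝ) (π : Λ) : Finset X0 :=
  Finset.univ.filter fun x => 0 < u π x ∧ x.1 ≠ x.2.1

open Classical in
/-- Bob's pairs at the leaf `π` -/
noncomputable def Bset (q : Λ → Y0 → ℝ) (π : Λ) : Finset Y0 :=
  Finset.univ.filter fun y => 0 < q π y ∧ y.1 ≠ y.2.1

/-- `π` is a star leaf with centre `i` -/
def IsStar (ε : ℝ) (u : Λ → X0 → ℝ) (q : Λ → Y0 → ℝ) (i : Fin 32) (π : Λ) : Prop :=
  0 < Pbar ε u q π ∧ (∀ x ∈ Aset u π, i = x.1 ∨ i = x.2.1) ∧ ∀ y ∈ Bset q π, i = y.1 ∨ i = y.2.1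

theorem xA_ne (ω : Smp) : (xA ω).1 ≠ (xA ω).2.1 := by
  unfold xA
  split_ifs <;> simp

theorem yB_ne (ω : Smp) (b : Option Bool) : (yB ω b).1 ≠ (yB ω b).2.1 := by
  unfold yB
  split_ifs <;> simp

theorem F0_xy (ω : Smp) (b : Option Bool) : F0 (xA ω) (yB ω b) = true := by
  unfold F0 xA yB
  split_ifs <;> simp

theorem mem_of_Pm_pos (hP : IsProt u q) {ε : ℝ} {ω : Smp} {π : Λ}
    (h : 0 < Pm ε u q ω π) : xA ω ∈ Aset u π ∧ ∃ b, yB ω b ∈ Bset q π := by
  have hu := hP.hu π (xA ω)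
  have hq0 := hP.hq π (yB ω (some ω.2.1))
  have hq1 := hP.hq π (yB ω none)
  have hpos : 0 < u π (xA ω) := by
    rcases hu.eq_or_lt with h2 | h2
    · exfalso; unfold Pm P0 P1 at h; rw [← h2] at h; simp at h
    · exact h2
  refine ⟨by simp [Aset, hpos, xA_ne ω], ?_⟩
  rcases hq0.eq_or_lt with h2 | h2
  · rcases hq1.eq_or_lt with h3 | h3
    · exfalso; unfold Pm P0 P1 at h; rw [← h2, ← h3] at h; simp at h
    · exact ⟨none, by simp [Bset, h3, yB_ne ω]⟩
  · exact ⟨some ω.2.1, by simp [Bset, h2, yB_ne ω]⟩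

theorem star_or (hP : IsProt u q) {ε : ℝ} {π : Λ}
    (h : 0 < Pbar ε u q π) : (∃ i, IsStar ε u q i π) ∨
      (Finset.univ.filter
        (fun ω : Smp => xA ω ∈ Aset u π ∧ ∃ b, yB ω b ∈ Bset q π)).card * 124 ≤
        Fintype.card Smp := by
  obtain ⟨out, hz⟩ := hP.hz
  obtain ⟨ω, hω⟩ : ∃ ω, 0 < Pm ε u q ω π := by
    by_contra hcon
    push Not at hcon
    have : Pbar ε u q π ≤ 0 := by
      have := avgG_mono hcon
      rw [avgG_const] at this
      exact this
    linarith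
  obtain ⟨hx, b, hy⟩ := mem_of_Pm_pos hP hω
  have hx' : 0 < u π (xA ω) := by simp [Aset] at hx; exact hx.1
  have hy' : 0 < q π (yB ω b) := by simp [Bset] at hy; exact hy.1
  have hout : out π = true := by
    rw [hz π _ _ (mul_pos hx' hy')]; exact F0_xy ω b
  have := star_or_small (Aset u π) (Bset q π) (fun x hx => by simp [Aset] at hx; exact hx.2)
    (fun y hy => by simp [Bset] at hy; exact hy.2)
    (fun x hx y hy => by
      simp [Aset] at hx; simp [Bset] at hy
      rw [← hz π x y (mul_pos hx.1 hy.1)]; exact hout)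
  rcases this with ⟨i, hi⟩ | h2
  · exact Or.inl ⟨i, h, hi⟩
  · exact Or.inr (by convert h2)

theorem star_common {ε : ℝ} (hP : IsProt u q) {i : Fin 32} {π : Λ}
    (h : IsStar ε u q i π) {ω : Smp} (hω : 0 < Pm ε u q ω π) : i = ω.1 0 := by
  obtain ⟨hx, b, hy⟩ := mem_of_Pm_pos hP hω
  have hx1 := h.2.1 _ hx
  have hy1 := h.2.2 _ hy
  have hx2 : i = ω.1 0 ∨ i = ω.1 1 := by
    unfold xA at hx1
    split_ifs at hx1 <;> simpa [or_comm] using hx1
  have hy2 : i = ω.1 0 ∨ i = ω.1 2 := by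
    unfold yB at hy1
    split_ifs at hy1 <;> simpa [or_comm] using hy1
  rcases hx2 with h2 | h2
  · exact h2
  · rcases hy2 with h3 | h3
    · exact h3
    · exfalso
      have := ω.1.injective (h2.symm.trans h3)
      exact absurd this (by decide)

theorem pw (hP : IsProt u q) {ε : ℝ} (h0 : 0 < ε) (h1 : ε < 1) (ω : Smp) (π : Λ) :
    (1 - ε) * (P0 u q ω π * Real.log (P0 u q ω π / Pbar ε u q π)) +
      ε * (P1 u q ω π * Real.log (P1 u q ω π / Pbar ε u q π)) =
    Pm ε u q ω π * Real.log (Pm ε u q ω π / Pbar ε u q π) +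
      ((1 - ε) * (P0 u q ω π * Real.log (P0 u q ω π / Pm ε u q ω π)) +
        ε * (P1 u q ω π * Real.log (P1 u q ω π / Pm ε u q ω π))) := by
  have key : ∀ p : ℝ, (p = 0 ∨ 0 < p) → (0 < p → 0 < Pm ε u q ω π) →
      p * Real.log (p / Pbar ε u q π) =
      p * Real.log (p / Pm ε u q ω π) + p * Real.log (Pm ε u q ω π / Pbar ε u q π) := by
    intro p hp hpm
    rcases hp with hp | hp
    · subst hp; simp
    · have h2 := hpm hp
      have h3 := Pbar_pos hP h0 h1 h2
      rw [← mul_add, ← Real.log_mul (by positivity) (by positivity)]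
      congr 2
      field_simp
  have e0 := key (P0 u q ω π) ((P0_nonneg hP ω π).eq_or_lt.imp Eq.symm id) (Pm_pos_of_P0 hP h0 h1)
  have e1 := key (P1 u q ω π) ((P1_nonneg hP ω π).eq_or_lt.imp Eq.symm id) (Pm_pos_of_P1 hP h0 h1)
  rw [e0, e1]
  have : Pm ε u q ω π * Real.log (Pm ε u q ω π / Pbar ε u q π) =
    ((1 - ε) * P0 u q ω π + ε * P1 u q ω π) * Real.log (Pm ε u q ω π / Pbar ε u q π) := rfl
  rw [this]
  ring

theorem kl_nonneg (f g : Λ → ℝ) (hf : ∀ π, 0 ≤ f π) (hg : ∀ π, 0 ≤ g π)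
    (h : ∀ π, 0 < f π → 0 < g π) (sf : ∑ π, f π = 1) (sg : ∑ π, g π = 1) :
    0 ≤ ∑ π, f π * Real.log (f π / g π) := by
  have : ∑ π, (f π - g π) ≤ ∑ π, f π * Real.log (f π / g π) := by
    apply Finset.sum_le_sum
    intro π _
    rcases (hf π).eq_or_lt with h2 | h2
    · rw [← h2]; simp; exact hg π
    · exact sub_le_mul_log _ _ h2.le (h π h2)
  rw [Finset.sum_sub_distrib, sf, sg] at this
  linarith

theorem star_unique (hP : IsProt u q) {ε : ℝ} {i j : Fin 32} {π : Λ}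
    (hi : IsStar ε u q i π) (hj : IsStar ε u q j π) : i = j := by
  obtain ⟨ω, hω⟩ : ∃ ω, 0 < Pm ε u q ω π := by
    by_contra hcon
    push Not at hcon
    have : Pbar ε u q π ≤ 0 := by
      have := avgG_mono hcon
      rw [avgG_const] at this
      exact this
    linarith [hi.1]
  rw [star_common hP hi hω, star_common hP hj hω]

theorem cast_mul_le (a b k : ℕ) (r : ℝ) (hr : (k : ℝ) = r) (h : a * k ≤ b) :
    (a : ℝ) * r ≤ (b : ℝ) := by
  rw [← hr]; exact_mod_cast h

theorem lin1 (a b c s : ℝ) (h1 : a + b = 1) (h2 : a - (1 / 2) * c ≤ s) :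
    1 - s ≤ b + (1 / 2) * c := by linarith

theorem lin2 (p l s : ℝ) (h : 2 * (p - s) ≤ l) : p - (1 / 2) * l ≤ s := by linarith

theorem card_T (i : Fin 32) :
    ((Finset.univ.filter (fun ω : Smp => ω.1 0 = i)).card : ℝ) * 32 ≤ (Fintype.card Smp : ℝ) := by
  have h := card_perm_fix i
  have h2 : (Finset.univ.filter (fun ω : Smp => ω.1 0 = i)) =
      (Finset.univ.filter (fun σ : Equiv.Perm (Fin 32) => σ 0 = i)) ×ˢ
        (Finset.univ : Finset (Bool × Bool)) := by
    ext ω; simp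
  have h3 : (Finset.univ.filter (fun ω : Smp => ω.1 0 = i)).card * 32 = Fintype.card Smp := by
    rw [h2, Finset.card_product, mul_right_comm, h, Fintype.card_prod, Finset.card_univ]
  exact cast_mul_le _ _ 32 32 (by norm_num) h3.le

/-- the star part -/
theorem star_term (hP : IsProt u q) {ε : ℝ} (h0 : 0 < ε) (h1 : ε < 1) {i : Fin 32} {π : Λ}
    (h : IsStar ε u q i π) :
    0 ≤ avgG (fun ω => Pm ε u q ω π * Real.log (Pm ε u q ω π / (32 * Pbar ε u q π))) ∧
      avgG (fun ω => Pm ε u q ω π * Real.log (Pm ε u q ω π / Pbar ε u q π)) =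
      Pbar ε u q π * Real.log 32 +
        avgG (fun ω => Pm ε u q ω π * Real.log (Pm ε u q ω π / (32 * Pbar ε u q π))) := by
  have hF := h.1
  have e1 : avgG (fun ω => Pm ε u q ω π * Real.log (Pm ε u q ω π / Pbar ε u q π)) =
      Pbar ε u q π * Real.log 32 +
        avgG (fun ω => Pm ε u q ω π * Real.log (Pm ε u q ω π / (32 * Pbar ε u q π))) := by
    have : ∀ ω, Pm ε u q ω π * Real.log (Pm ε u q ω π / Pbar ε u q π) =
        Real.log 32 * Pm ε u q ω π +
          Pm ε u q ω π * Real.log (Pm ε u q ω π / (32 * Pbar ε u q π)) := by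
      intro ω
      rcases (Pm_nonneg hP h0 h1 ω π).eq_or_lt with h2 | h2
      · rw [← h2]; simp
      · have : Real.log (Pm ε u q ω π / Pbar ε u q π) =
            Real.log (Pm ε u q ω π / (32 * Pbar ε u q π)) + Real.log 32 := by
          rw [← Real.log_mul (by positivity) (by positivity)]
          congr 1
          field_simp
        rw [this]; ring
    simp only [this]
    rw [avgG_add, avgG_mul]
    have : avgG (fun ω => Pm ε u q ω π) = Pbar ε u q π := rfl
    rw [this]; ring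
  refine ⟨?_, e1⟩
  have h2 := avgG_support (f := fun ω => Pm ε u q ω π) (fun ω => Pm_nonneg hP h0 h1 ω π) hF
    (Finset.univ.filter (fun ω : Smp => ω.1 0 = i)) (by
      intro ω hω
      by_contra hne
      have hpos := lt_of_le_of_ne (Pm_nonneg hP h0 h1 ω π) (Ne.symm hne)
      exact hω (by simp [star_common hP h hpos])) 32 (by norm_num) (card_T i)
  have : avgG (fun ω => Pm ε u q ω π) = Pbar ε u q π := rfl
  rw [this, e1] at h2
  linarith

theorem log_124 : Real.log 32 + 1 ≤ Real.log 124 := by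
  have h1 : Real.log 124 = Real.log 32 + Real.log (124 / 32) := by
    rw [← Real.log_mul (by norm_num) (by norm_num)]; norm_num
  have h2 : (1 : ℝ) ≤ Real.log (124 / 32) := by
    rw [Real.le_log_iff_exp_le (by norm_num)]
    have := Real.exp_one_lt_d9
    linarith
  linarith

theorem nonstar_term (hP : IsProt u q) {ε : ℝ} (h0 : 0 < ε) (h1 : ε < 1) {π : Λ}
    (h : ¬ ∃ i, IsStar ε u q i π) :
    Pbar ε u q π * Real.log 32 + Pbar ε u q π ≤
      avgG (fun ω => Pm ε u q ω π * Real.log (Pm ε u q ω π / Pbar ε u q π)) := by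
  rcases (Pbar_nonneg hP h0 h1 π).eq_or_lt with h2 | h2
  · have : ∀ ω, Pm ε u q ω π = 0 :=
      avgG_eq_zero (fun ω => Pm_nonneg hP h0 h1 ω π) h2.symm
    rw [← h2]
    simp only [this]
    simp [avgG_const]
  · rcases star_or hP h2 with h3 | h3
    · exact absurd h3 h
    · have h4 := avgG_support (f := fun ω => Pm ε u q ω π) (fun ω => Pm_nonneg hP h0 h1 ω π) h2
        (Finset.univ.filter fun ω : Smp => xA ω ∈ Aset u π ∧ ∃ b, yB ω b ∈ Bset q π) (by
          intro ω hω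
          by_contra hne
          have hpos := lt_of_le_of_ne (Pm_nonneg hP h0 h1 ω π) (Ne.symm hne)
          apply hω
          simp only [Finset.mem_filter, Finset.mem_univ, true_and]
          exact mem_of_Pm_pos hP hpos) 124
        (by norm_num) (cast_mul_le _ _ 124 124 (by norm_num) h3)
      have : avgG (fun ω => Pm ε u q ω π) = Pbar ε u q π := rfl
      rw [this] at h4
      refine le_trans ?_ h4
      have h5 := mul_le_mul_of_nonneg_left log_124 h2.le
      rw [mul_add, mul_one] at h5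
      exact h5

open Classical in
theorem dec {ε Ω : ℝ} (h0 : 0 < ε) (h1 : ε < 1) (hP : IsProt u q)
    (hI : Info ε u q ≤ Real.log 32 + Ω) :
    ∃ S : Fin 32 → Finset Λ, (∀ i j, i ≠ j → Disjoint (S i) (S j)) ∧
      (∀ i, ∑ π ∈ S i, 32 * Pbar ε u q π ≤ 1) ∧
      avgG (fun ω : Smp => 1 - ∑ π ∈ S (ω.1 0),
        Real.sqrt (Pm ε u q ω π * (32 * Pbar ε u q π))) ≤ Ω ∧
      avgG (fun ω : Smp => ∑ π, P1 u q ω π * Real.log (P1 u q ω π / Pm ε u q ω π)) ≤ Ω / ε := by
  set St : Finset Λ := Finset.univ.filter (fun π => ∃ i, IsStar ε u q i π) with hSt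
  set J : Λ → ℝ := fun π => avgG (fun ω => Pm ε u q ω π * Real.log (Pm ε u q ω π / Pbar ε u q π)) with hJ
  set B : Λ → ℝ := fun π => avgG (fun ω => Pm ε u q ω π * Real.log (Pm ε u q ω π / (32 * Pbar ε u q π)))
    with hB
  set K0 : Smp → ℝ := fun ω => ∑ π, P0 u q ω π * Real.log (P0 u q ω π / Pm ε u q ω π) with hK0
  set K1 : Smp → ℝ := fun ω => ∑ π, P1 u q ω π * Real.log (P1 u q ω π / Pm ε u q ω π) with hK1
  have hInfo : Info ε u q = (∑ π, J π) + ((1 - ε) * avgG K0 + ε * avgG K1) := by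
    have e1 : Info ε u q = ∑ π, (J π + avgG (fun ω =>
        ((1 - ε) * (P0 u q ω π * Real.log (P0 u q ω π / Pm ε u q ω π)) +
        ε * (P1 u q ω π * Real.log (P1 u q ω π / Pm ε u q ω π))))) := by
      unfold Info
      apply Finset.sum_congr rfl
      intro π _
      rw [avg_eq, hJ, ← avgG_add]
      exact congrArg avgG (funext fun ω => pw hP h0 h1 ω π)
    rw [e1, Finset.sum_add_distrib]
    refine congrArg₂ (· + ·) rfl ?_
    rw [← avgG_sum, ← avgG_mul, ← avgG_mul, ← avgG_add]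
    refine congrArg avgG (funext fun ω => ?_)
    rw [Finset.sum_add_distrib, ← Finset.mul_sum, ← Finset.mul_sum]
  have hK0n : 0 ≤ avgG K0 := avgG_nonneg fun ω =>
    kl_nonneg _ _ (P0_nonneg hP ω) (Pm_nonneg hP h0 h1 ω) (fun π => Pm_pos_of_P0 hP h0 h1)
      (sum_P0 hP ω) (sum_Pm hP ε ω)
  have hK1n : 0 ≤ avgG K1 := avgG_nonneg fun ω =>
    kl_nonneg _ _ (P1_nonneg hP ω) (Pm_nonneg hP h0 h1 ω) (fun π => Pm_pos_of_P1 hP h0 h1)
      (sum_P1 hP ω) (sum_Pm hP ε ω)
  have hBn : ∀ π ∈ St, 0 ≤ B π := by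
    intro π hπ
    obtain ⟨i, hi⟩ := (Finset.mem_filter.mp hπ).2
    exact (star_term hP h0 h1 hi).1
  have hsumJ : Real.log 32 + (∑ π ∈ St, B π + ∑ π ∈ Stᶜ, Pbar ε u q π) ≤ ∑ π, J π := by
    rw [← Finset.sum_add_sum_compl St J]
    have a1 : ∑ π ∈ St, J π = ∑ π ∈ St, Pbar ε u q π * Real.log 32 + ∑ π ∈ St, B π := by
      rw [← Finset.sum_add_distrib]
      apply Finset.sum_congr rfl
      intro π hπ
      obtain ⟨i, hi⟩ := (Finset.mem_filter.mp hπ).2
      exact (star_term hP h0 h1 hi).2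
    have a2 : ∑ π ∈ Stᶜ, Pbar ε u q π * Real.log 32 + ∑ π ∈ Stᶜ, Pbar ε u q π ≤
        ∑ π ∈ Stᶜ, J π := by
      rw [← Finset.sum_add_distrib]
      apply Finset.sum_le_sum
      intro π hπ
      have : ¬ ∃ i, IsStar ε u q i π := by
        intro hcon
        exact (Finset.mem_compl.mp hπ) (Finset.mem_filter.mpr ⟨Finset.mem_univ _, hcon⟩)
      exact nonstar_term hP h0 h1 this
    have a3 : ∑ π ∈ St, Pbar ε u q π * Real.log 32 + ∑ π ∈ Stᶜ, Pbar ε u q π * Real.log 32 =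
        Real.log 32 := by
      rw [Finset.sum_add_sum_compl, ← Finset.sum_mul, sum_Pbar hP, one_mul]
    linarith
  have hPbn : 0 ≤ ∑ π ∈ Stᶜ, Pbar ε u q π :=
    Finset.sum_nonneg fun π _ => Pbar_nonneg hP h0 h1 π
  have hBs : 0 ≤ ∑ π ∈ St, B π := Finset.sum_nonneg hBn
  have hmain : (∑ π ∈ St, B π) + (∑ π ∈ Stᶜ, Pbar ε u q π) + ε * avgG K1 ≤ Ω := by
    have : 0 ≤ (1 - ε) * avgG K0 := mul_nonneg (by linarith) hK0n
    linarith
  refine ⟨fun i => Finset.univ.filter (fun π => IsStar ε u q i π), ?_, ?_, ?_, ?_⟩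
  · intro i j hij
    rw [Finset.disjoint_left]
    intro π hi hj
    exact hij (star_unique hP (Finset.mem_filter.mp hi).2 (Finset.mem_filter.mp hj).2)
  · intro i
    have e1 : ∀ π, Pbar ε u q π = avgG (fun ω => Pm ε u q ω π) := fun π => rfl
    have e2 : ∑ π ∈ Finset.univ.filter (fun π => IsStar ε u q i π), 32 * Pbar ε u q π =
        32 * avgG (fun ω => ∑ π ∈ Finset.univ.filter (fun π => IsStar ε u q i π), Pm ε u q ω π) := by
      rw [avgG_sum, Finset.mul_sum]
      rfl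
    rw [e2]
    have e3 : avgG (fun ω : Smp => ∑ π ∈ Finset.univ.filter (fun π => IsStar ε u q i π), Pm ε u q ω π) ≤
        avgG (fun ω : Smp => if ω.1 0 = i then (1 : ℝ) else 0) := by
      apply avgG_mono
      intro ω
      split_ifs with h
      · rw [← sum_Pm hP ε ω]
        exact Finset.sum_le_sum_of_subset_of_nonneg (Finset.subset_univ _)
          fun π _ _ => Pm_nonneg hP h0 h1 ω π
      · apply le_of_eq
        apply Finset.sum_eq_zero
        intro π hπ
        by_contra hne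
        have hpos := lt_of_le_of_ne (Pm_nonneg hP h0 h1 ω π) (Ne.symm hne)
        exact h (star_common hP (Finset.mem_filter.mp hπ).2 hpos).symm
    have e4 : avgG (fun ω : Smp => if ω.1 0 = i then (1 : ℝ) else 0) * 32 ≤ 1 := by
      have hN : (0 : ℝ) < (Fintype.card Smp : ℝ) := by exact_mod_cast Fintype.card_pos
      have e5 : avgG (fun ω : Smp => if ω.1 0 = i then (1 : ℝ) else 0) =
          ((Finset.univ.filter (fun ω : Smp => ω.1 0 = i)).card : ℝ) / (Fintype.card Smp : ℝ) := by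
        unfold avgG
        rw [Finset.sum_boole]
      rw [e5, div_mul_eq_mul_div, div_le_one hN]
      exact card_T i
    linarith
  · have e1 : avgG (fun ω : Smp => 1 - ∑ π ∈ Finset.univ.filter (fun π => IsStar ε u q (ω.1 0) π),
        Real.sqrt (Pm ε u q ω π * (32 * Pbar ε u q π))) ≤
        avgG (fun ω : Smp => (∑ π ∈ Stᶜ, Pm ε u q ω π) + (1 / 2) * ∑ π ∈ St,
          Pm ε u q ω π * Real.log (Pm ε u q ω π / (32 * Pbar ε u q π))) := by
      apply avgG_mono
      intro ω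
      have b1 : ∑ π ∈ Finset.univ.filter (fun π => IsStar ε u q (ω.1 0) π),
          (Pm ε u q ω π - (1 / 2) * (Pm ε u q ω π * Real.log (Pm ε u q ω π / (32 * Pbar ε u q π)))) =
          ∑ π ∈ St, (Pm ε u q ω π - (1 / 2) *
            (Pm ε u q ω π * Real.log (Pm ε u q ω π / (32 * Pbar ε u q π)))) := by
        apply Finset.sum_subset
        · intro π hπ
          exact Finset.mem_filter.mpr ⟨Finset.mem_univ _, _, (Finset.mem_filter.mp hπ).2⟩
        · intro π hπ hn
          obtain ⟨i, hi⟩ := (Finset.mem_filter.mp hπ).2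
          have : Pm ε u q ω π = 0 := by
            by_contra hne
            have hpos := lt_of_le_of_ne (Pm_nonneg hP h0 h1 ω π) (Ne.symm hne)
            have := star_common hP hi hpos
            subst this
            exact hn (Finset.mem_filter.mpr ⟨Finset.mem_univ _, hi⟩)
          rw [this]; simp
      have b2 : ∑ π ∈ Finset.univ.filter (fun π => IsStar ε u q (ω.1 0) π),
          (Pm ε u q ω π - (1 / 2) * (Pm ε u q ω π * Real.log (Pm ε u q ω π / (32 * Pbar ε u q π)))) ≤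
          ∑ π ∈ Finset.univ.filter (fun π => IsStar ε u q (ω.1 0) π),
            Real.sqrt (Pm ε u q ω π * (32 * Pbar ε u q π)) := by
        apply Finset.sum_le_sum
        intro π hπ
        have hpos := (Finset.mem_filter.mp hπ).2.1
        exact lin2 _ _ _ (two_sub_sqrt_le (Pm ε u q ω π) (32 * Pbar ε u q π)
          (Pm_nonneg hP h0 h1 ω π) (mul_pos (by norm_num) hpos))
      have b3 := sum_Pm hP ε ω
      rw [← Finset.sum_add_sum_compl St] at b3
      rw [b1, Finset.sum_sub_distrib, ← Finset.mul_sum] at b2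
      exact lin1 _ _ _ _ b3 b2
    refine e1.trans ?_
    rw [avgG_add, avgG_mul, avgG_sum, avgG_sum]
    have e2 : ∑ π ∈ Stᶜ, avgG (fun ω => Pm ε u q ω π) = ∑ π ∈ Stᶜ, Pbar ε u q π := rfl
    have e3 : 0 ≤ ε * avgG K1 := mul_nonneg h0.le hK1n
    rw [e2]
    show ∑ π ∈ Stᶜ, Pbar ε u q π + 1 / 2 * ∑ π ∈ St, B π ≤ Ω
    linarith
  · rw [le_div_iff₀ h0]
    show avgG K1 * ε ≤ Ω
    linarith

end main

end Pool.Agent.H32.Ext
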