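import Mathlib

/-!
Two-party communication protocols (protocol trees with arbitrary private randomness of both
players and public coins), external information cost, expected communication, for the disproof of
MP_ea601a_lc.
-/

namespace Pool.Agent.H32.Ext

/-- Two-party protocol trees with inputs in `X` (Alice) and `Y` (Bob) and outputs in `O`.
* `leaf o`: the protocol stops and outputs `o` (the output is part of the transcript);
* `alice p l r`: Alice sends one bit, which is `1` with probability `p x` (continue with `r`)
  and `0` with probability `1 - p x` (continue with `l`), where `x` is her input;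
* `bob p l r`: the same for Bob;
* `coin p l r`: a public coin toss, visible to everybody. -/
inductive Prot (X Y O : Type) : Type
  | leaf (o : O) : Prot X Y O
  | alice (p : X → unitInterval) (l r : Prot X Y O) : Prot X Y O
  | bob (p : Y → unitInterval) (l r : Prot X Y O) : Prot X Y O
  | coin (p : unitInterval) (l r : Prot X Y O) : Prot X Y O

namespace Prot

variable {X Y O : Type}

/-- The complete transcripts of a protocol: the leaves of the tree. -/
def Leaf : Prot X Y O → Type
  | leaf _ => Unit
  | alice _ l r => l.Leaf ⊕ r.Leaf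
  | bob _ l r => l.Leaf ⊕ r.Leaf
  | coin _ l r => l.Leaf ⊕ r.Leaf

instance instFintypeLeaf : (P : Prot X Y O) → Fintype P.Leaf
  | leaf _ => inferInstanceAs (Fintype Unit)
  | alice _ l r =>
      let _ := instFintypeLeaf l
      let _ := instFintypeLeaf r
      inferInstanceAs (Fintype (l.Leaf ⊕ r.Leaf))
  | bob _ l r =>
      let _ := instFintypeLeaf l
      let _ := instFintypeLeaf r
      inferInstanceAs (Fintype (l.Leaf ⊕ r.Leaf))
  | coin _ l r =>
      let _ := instFintypeLeaf l
      let _ := instFintypeLeaf r
      inferInstanceAs (Fintype (l.Leaf ⊕ r.Leaf))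

/-- The output of the protocol at a complete transcript. -/
def out : (P : Prot X Y O) → P.Leaf → O
  | leaf o, _ => o
  | alice _ l _, Sum.inl π => l.out π
  | alice _ _ r, Sum.inr π => r.out π
  | bob _ l _, Sum.inl π => l.out π
  | bob _ _ r, Sum.inr π => r.out π
  | coin _ l _, Sum.inl π => l.out π
  | coin _ _ r, Sum.inr π => r.out π

/-- The probability of the transcript `π` on the inputs `x`, `y`. -/
def pr : (P : Prot X Y O) → X → Y → P.Leaf → ℝ
  | leaf _, _, _, _ => 1
  | alice p l _, x, y, Sum.inl π => (1 - (p x : ℝ)) * l.pr x y π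
  | alice p _ r, x, y, Sum.inr π => (p x : ℝ) * r.pr x y π
  | bob p l _, x, y, Sum.inl π => (1 - (p y : ℝ)) * l.pr x y π
  | bob p _ r, x, y, Sum.inr π => (p y : ℝ) * r.pr x y π
  | coin p l _, x, y, Sum.inl π => (1 - (p : ℝ)) * l.pr x y π
  | coin p _ r, x, y, Sum.inr π => (p : ℝ) * r.pr x y π

/-- The number of bits exchanged by the players along a transcript (public coins are free). -/
def bits : (P : Prot X Y O) → P.Leaf → ℕ
  | leaf _, _ => 0
  | alice _ l _, Sum.inl π => l.bits π + 1
  | alice _ _ r, Sum.inr π => r.bits π + 1
  | bob _ l _, Sum.inl π => l.bits π + 1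
  | bob _ _ r, Sum.inr π => r.bits π + 1
  | coin _ l _, Sum.inl π => l.bits π
  | coin _ _ r, Sum.inr π => r.bits π

/-- `P` computes `G` with zero error: on every input, every transcript which occurs with positive
probability has the correct output. -/
def ZeroError (P : Prot X Y O) (G : X → Y → O) : Prop :=
  ∀ x y π, 0 < P.pr x y π → P.out π = G x y

/-- The external information `I(Π ; X Y)` (in bits) of the protocol when the inputs are
distributed according to `μ`. -/
noncomputable def extInfo [Fintype X] [Fintype Y] (P : Prot X Y O) (μ : X → Y → ℝ) : ℝ :=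
  ∑ π : P.Leaf, ∑ x, ∑ y, μ x y * P.pr x y π *
    Real.logb 2 (P.pr x y π / ∑ x', ∑ y', μ x' y' * P.pr x' y' π)

/-- The expected number of bits exchanged when the inputs are distributed according to `μ`. -/
noncomputable def avgBits [Fintype X] [Fintype Y] (P : Prot X Y O) (μ : X → Y → ℝ) : ℝ :=
  ∑ x, ∑ y, μ x y * ∑ π : P.Leaf, P.pr x y π * (P.bits π : ℝ)

end Prot

variable {X Y : Type}

/-- `n` independent copies of the task `F`. -/
def powF (F : X → Y → Bool) (n : ℕ) : (Fin n → X) → (Fin n → Y) → (Fin n → Bool) :=
  fun x y i => F (x i) (y i)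

/-- The product distribution of `n` independent copies of `μ`. -/
def powD (μ : X → Y → ℝ) (n : ℕ) : (Fin n → X) → (Fin n → Y) → ℝ :=
  fun x y => ∏ i, μ (x i) (y i)

/-- Zero-error external information complexity of `F` with respect to `μ`. -/
noncomputable def ICext [Fintype X] [Fintype Y] (F : X → Y → Bool) (μ : X → Y → ℝ) : ℝ :=
  sInf {v | ∃ P : Prot X Y Bool, P.ZeroError F ∧ v = P.extInfo μ}

/-- Expected communication complexity of `n` copies of `F` for zero-error protocols. -/
noncomputable def CCavg [Fintype X] [Fintype Y] (F : X → Y → Bool) (μ : X → Y → ℝ) (n : ℕ) : ℝ :=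
  sInf {v | ∃ P : Prot (Fin n → X) (Fin n → Y) (Fin n → Bool),
    P.ZeroError (powF F n) ∧ v = P.avgBits (powD μ n)}

end Pool.Agent.H32.Ext
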