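import Pool.Agent.H32.Ext.Defs

/-! Deterministic protocols. -/

namespace Pool.Agent.H32.Ext

/-- Deterministic two-party protocols. -/
inductive DProt (X Y O : Type) : Type
  | leaf (o : O) : DProt X Y O
  | alice (f : X → Bool) (k : Bool → DProt X Y O) : DProt X Y O
  | bob (f : Y → Bool) (k : Bool → DProt X Y O) : DProt X Y O

namespace DProt

variable {X Y O : Type}

/-- output of the protocol -/
def run : DProt X Y O → X → Y → O
  | leaf o, _, _ => o
  | alice f k, x, y => (k (f x)).run x y
  | bob f k, x, y => (k (f y)).run x y

/-- number of bits exchanged -/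
def cost : DProt X Y O → X → Y → ℕ
  | leaf _, _, _ => 0
  | alice f k, x, y => (k (f x)).cost x y + 1
  | bob f k, x, y => (k (f y)).cost x y + 1

/-- sequential composition -/
def bind {O' : Type} : DProt X Y O → (O → DProt X Y O') → DProt X Y O'
  | leaf o, g => g o
  | alice f k, g => alice f (fun b => (k b).bind g)
  | bob f k, g => bob f (fun b => (k b).bind g)

/-- change of inputs -/
def comap {X' Y' : Type} (φ : X' → X) (ψ : Y' → Y) : DProt X Y O → DProt X' Y' O
  | leaf o => leaf o
  | alice f k => alice (fun x => f (φ x)) (fun b => (k b).comap φ ψ)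
  | bob f k => bob (fun y => f (ψ y)) (fun b => (k b).comap φ ψ)

theorem run_bind {O' : Type} (D : DProt X Y O) (g : O → DProt X Y O') (x : X) (y : Y) :
    (D.bind g).run x y = (g (D.run x y)).run x y := by
  induction D with
  | leaf o => rfl
  | alice f k ih => exact ih (f x)
  | bob f k ih => exact ih (f y)

theorem cost_bind {O' : Type} (D : DProt X Y O) (g : O → DProt X Y O') (x : X) (y : Y) :
    (D.bind g).cost x y = D.cost x y + (g (D.run x y)).cost x y := by
  induction D with
  | leaf o => simp [bind, cost, run]
  | alice f k ih =>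
    simp only [bind, cost, run]
    rw [ih (f x)]; ring
  | bob f k ih =>
    simp only [bind, cost, run]
    rw [ih (f y)]; ring

theorem run_comap {X' Y' : Type} (φ : X' → X) (ψ : Y' → Y) (D : DProt X Y O) (x : X') (y : Y') :
    (D.comap φ ψ).run x y = D.run (φ x) (ψ y) := by
  induction D with
  | leaf o => rfl
  | alice f k ih => exact ih (f (φ x))
  | bob f k ih => exact ih (f (ψ y))

theorem cost_comap {X' Y' : Type} (φ : X' → X) (ψ : Y' → Y) (D : DProt X Y O) (x : X') (y : Y') :
    (D.comap φ ψ).cost x y = D.cost (φ x) (ψ y) := by
  induction D with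
  | leaf o => rfl
  | alice f k ih => simp only [comap, cost]; rw [ih (f (φ x))]
  | bob f k ih => simp only [comap, cost]; rw [ih (f (ψ y))]

/-- a bit as a probability -/
def bp (b : Bool) : unitInterval := if b then 1 else 0

/-- the corresponding protocol tree -/
def toProt : DProt X Y O → Prot X Y O
  | leaf o => .leaf o
  | alice f k => .alice (fun x => bp (f x)) (k false).toProt (k true).toProt
  | bob f k => .bob (fun y => bp (f y)) (k false).toProt (k true).toProt

end DProt

end Pool.Agent.H32.Ext
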