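import Pool.Agent.H32.Ext.Det

/-! The example: set intersection of pairs, with an erased bit. -/

namespace Pool.Agent.H32.Ext

open scoped BigOperators

/-- Alice's inputs: `(A₀, A₁, a)` -/
abbrev X0 := Fin 32 × Fin 32 × Bool
/-- Bob's inputs: `(B₀, B₁, b)` with `b = none` an erasure -/
abbrev Y0 := Fin 32 × Fin 32 × Option Bool

/-- `F0 x y` iff `{A₀, A₁}` and `{B₀, B₁}` intersect -/
def F0 (x : X0) (y : Y0) : Bool :=
  decide (x.1 = y.1 ∨ x.1 = y.2.1 ∨ x.2.1 = y.1 ∨ x.2.1 = y.2.1)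

/-- sample space `(σ, a, c)` -/
abbrev Smp := Equiv.Perm (Fin 32) × Bool × Bool

/-- Alice's input: common element `σ 0`, other element `σ 1`, order given by `c` -/
def xA (ω : Smp) : X0 :=
  if ω.2.2 then (ω.1 1, ω.1 0, ω.2.1) else (ω.1 0, ω.1 1, ω.2.1)

/-- Bob's input: common element `σ 0` at place `a`, other element `σ 2`, third coordinate `b` -/
def yB (ω : Smp) (b : Option Bool) : Y0 :=
  if ω.2.1 then (ω.1 2, ω.1 0, b) else (ω.1 0, ω.1 2, b)

/-- Alice's input on the full sample space (second coordinate: erasure) -/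
def xi (ω : Smp × Bool) : X0 := xA ω.1

/-- Bob's input on the full sample space -/
def eta (ω : Smp × Bool) : Y0 := yB ω.1 (if ω.2 then none else some ω.1.2.1)

/-- weights on the full sample space -/
noncomputable def wt (ε : ℝ) (ω : Smp × Bool) : ℝ :=
  (if ω.2 then ε else 1 - ε) / (Fintype.card Smp : ℝ)

/-- push-forward of weights -/
def push {Ω X Y : Type} [Fintype Ω] [DecidableEq X] [DecidableEq Y] (w : Ω → ℝ) (ξ : Ω → X)
    (η : Ω → Y) : X → Y → ℝ :=
  fun x y => ∑ ω, if ξ ω = x ∧ η ω = y then w ω else 0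

/-- Bob's element at place `a` -/
def bsel (y : Y0) (a : Bool) : Fin 32 := if a then y.2.1 else y.1

/-- the input pairs in the support of the distribution (and a few more) -/
def Good (x : X0) (y : Y0) : Prop :=
  (y.2.2 = none ∨ y.2.2 = some x.2.2) ∧ (bsel y x.2.2 = x.1 ∨ bsel y x.2.2 = x.2.1)

/-- erasure at position `p` -/
def er {n : ℕ} (y : Fin n → Y0) (p : ℕ) : Bool :=
  if h : p < n then (y ⟨p, h⟩).2.2.isNone else false

/-- number of pairs of erasures in `[s, s + m)` -/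
def pairs (e : ℕ → Bool) (s m : ℕ) : ℕ :=
  ∑ p ∈ Finset.Ico s (s + m), ∑ q ∈ Finset.Ico s (s + m),
    if p < q ∧ e p = true ∧ e q = true then 1 else 0

/-- sum of `pairs` over the dyadic subblocks of size at least two of `[s, s + 2 ^ h)` -/
def Phi (e : ℕ → Bool) : ℕ → ℕ → ℕ
  | 0, _ => 0
  | h + 1, s => pairs e s (2 ^ (h + 1)) + Phi e h s + Phi e h (s + 2 ^ h)

/-! the quantities of the lower bound -/

section lower

variable {Λ : Type} [Fintype Λ]

/-- transcript law without erasure -/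
def P0 (u : Λ → X0 → ℝ) (q : Λ → Y0 → ℝ) (ω : Smp) (π : Λ) : ℝ :=
  u π (xA ω) * q π (yB ω (some ω.2.1))

/-- transcript law with erasure -/
def P1 (u : Λ → X0 → ℝ) (q : Λ → Y0 → ℝ) (ω : Smp) (π : Λ) : ℝ :=
  u π (xA ω) * q π (yB ω none)

/-- mixture -/
def Pm (ε : ℝ) (u : Λ → X0 → ℝ) (q : Λ → Y0 → ℝ) (ω : Smp) (π : Λ) : ℝ :=
  (1 - ε) * P0 u q ω π + ε * P1 u q ω π

/-- average over the sample space -/
noncomputable def avg (f : Smp → ℝ) : ℝ := (∑ ω, f ω) / (Fintype.card Smp : ℝ)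

/-- marginal law of the transcript -/
noncomputable def Pbar (ε : ℝ) (u : Λ → X0 → ℝ) (q : Λ → Y0 → ℝ) (π : Λ) : ℝ :=
  avg (fun ω => Pm ε u q ω π)

/-- external information in nats -/
noncomputable def Info (ε : ℝ) (u : Λ → X0 → ℝ) (q : Λ → Y0 → ℝ) : ℝ :=
  ∑ π, avg (fun ω =>
    (1 - ε) * (P0 u q ω π * Real.log (P0 u q ω π / Pbar ε u q π)) +
      ε * (P1 u q ω π * Real.log (P1 u q ω π / Pbar ε u q π)))

/-- the data of a zero error protocol for `F0` at the level of leaves -/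
structure IsProt (u : Λ → X0 → ℝ) (q : Λ → Y0 → ℝ) : Prop where
  hu : ∀ π x, 0 ≤ u π x
  hq : ∀ π y, 0 ≤ q π y
  hsum : ∀ x y, ∑ π, u π x * q π y = 1
  hz : ∃ out : Λ → Bool, ∀ π x y, 0 < u π x * q π y → out π = F0 x y

end lower

end Pool.Agent.H32.Ext
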