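import Pool.Agent.H32.Ext.Ex

/-! EXT Expect: push-forward of product weights, and the expected number of pairs of erasures. -/

namespace Pool.Agent.H32.Ext

open scoped BigOperators

theorem sum_push {Ω X Y : Type} [Fintype Ω] [Fintype X] [Fintype Y] [DecidableEq X]
    [DecidableEq Y] (w : Ω → ℝ) (ξ : Ω → X) (η : Ω → Y) (n : ℕ)
    (g : (Fin n → X) → (Fin n → Y) → ℝ) :
    ∑ x, ∑ y, powD (push w ξ η) n x y * g x y =
      ∑ ω : Fin n → Ω, (∏ i, w (ω i)) * g (fun i => ξ (ω i)) (fun i => η (ω i)) := by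
  classical
  have h1 : ∀ x y, powD (push w ξ η) n x y =
      ∑ ω : Fin n → Ω, if (fun i => ξ (ω i)) = x ∧ (fun i => η (ω i)) = y then ∏ i, w (ω i)
        else 0 := by
    intro x y
    unfold powD push
    rw [Finset.prod_univ_sum]
    rw [Fintype.piFinset_univ]
    apply Finset.sum_congr rfl
    intro ω _
    by_cases h : (fun i => ξ (ω i)) = x ∧ (fun i => η (ω i)) = y
    · rw [if_pos h]
      apply Finset.prod_congr rfl
      intro i _
      rw [if_pos]
      exact ⟨congrFun h.1 i, congrFun h.2 i⟩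
    · rw [if_neg h]
      have : ∃ i, ¬ (ξ (ω i) = x i ∧ η (ω i) = y i) := by
        by_contra hcon
        push Not at hcon
        exact h ⟨funext fun i => (hcon i).1, funext fun i => (hcon i).2⟩
      obtain ⟨i, hi⟩ := this
      exact Finset.prod_eq_zero (Finset.mem_univ i) (if_neg hi)
  simp only [h1]
  have h2 : ∀ x y, (∑ ω : Fin n → Ω, if (fun i => ξ (ω i)) = x ∧ (fun i => η (ω i)) = y
      then ∏ i, w (ω i) else 0) * g x y =
      ∑ ω : Fin n → Ω, (if (fun i => ξ (ω i)) = x ∧ (fun i => η (ω i)) = y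
      then ∏ i, w (ω i) else 0) * g x y := fun x y => Finset.sum_mul _ _ _
  simp only [h2]
  have h3 : ∀ x, ∑ y, ∑ ω : Fin n → Ω, (if (fun i => ξ (ω i)) = x ∧ (fun i => η (ω i)) = y
      then ∏ i, w (ω i) else 0) * g x y =
      ∑ ω : Fin n → Ω, ∑ y, (if (fun i => ξ (ω i)) = x ∧ (fun i => η (ω i)) = y
      then ∏ i, w (ω i) else 0) * g x y := fun x => Finset.sum_comm
  simp only [h3]
  rw [Finset.sum_comm]
  apply Finset.sum_congr rfl
  intro ω _
  rw [Finset.sum_eq_single (fun i => ξ (ω i))]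
  · rw [Finset.sum_eq_single (fun i => η (ω i))]
    · rw [if_pos ⟨rfl, rfl⟩]
    · intro y _ hy
      rw [if_neg (fun h => hy h.2.symm), zero_mul]
    · intro h
      exact absurd (Finset.mem_univ _) h
  · intro x _ hx
    apply Finset.sum_eq_zero
    intro y _
    rw [if_neg (fun h => hx h.1.symm), zero_mul]
  · intro h
    exact absurd (Finset.mem_univ _) h

lemma exp_card_pos : (0 : ℝ) < (Fintype.card Smp : ℝ) := by
  have : 0 < Fintype.card Smp := Fintype.card_pos
  exact_mod_cast this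

theorem sum_wt (ε : ℝ) : ∑ ω, wt ε ω = 1 := by
  have hc := exp_card_pos
  rw [Fintype.sum_prod_type]
  simp only [wt, Fintype.sum_bool]
  simp only [if_true, Bool.false_eq_true, if_false, ← add_div]
  rw [Finset.sum_const, Finset.card_univ, nsmul_eq_mul]
  field_simp
  ring

lemma exp_wt_true (ε : ℝ) : ∑ ω, wt ε ω * (if ω.2 = true then 1 else 0) = ε := by
  have hc := exp_card_pos
  rw [Fintype.sum_prod_type]
  simp only [wt, Fintype.sum_bool]
  simp only [if_true, Bool.false_eq_true, if_false, mul_one, mul_zero, add_zero]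
  rw [Finset.sum_const, Finset.card_univ, nsmul_eq_mul]
  field_simp

lemma exp_two {N : ℕ} (ε : ℝ) (p q : Fin N) (hpq : p ≠ q) :
    ∑ ω : Fin N → Smp × Bool, (∏ i, wt ε (ω i)) *
      ((if (ω p).2 = true then 1 else 0) * (if (ω q).2 = true then 1 else 0)) = ε ^ 2 := by
  classical
  have h1 : ∀ ω : Fin N → Smp × Bool, (∏ i, wt ε (ω i)) *
      ((if (ω p).2 = true then (1 : ℝ) else 0) * (if (ω q).2 = true then 1 else 0)) =
      ∏ i, (wt ε (ω i) * if i = p ∨ i = q then (if (ω i).2 = true then 1 else 0) else 1) := by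
    intro ω
    rw [Finset.prod_mul_distrib]
    congr 1
    rw [Finset.prod_ite, Finset.prod_const_one, mul_one]
    have : (Finset.univ.filter fun i : Fin N => i = p ∨ i = q) = {p, q} := by
      ext i
      simp
    rw [this, Finset.prod_pair hpq]
  simp only [h1]
  have h2 := Finset.prod_univ_sum (fun _ : Fin N => (Finset.univ : Finset (Smp × Bool)))
    (fun i a => wt ε a * if i = p ∨ i = q then (if a.2 = true then (1 : ℝ) else 0) else 1)
  rw [Fintype.piFinset_univ] at h2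
  rw [← h2]
  have h3 : ∀ i : Fin N, ∑ a, wt ε a * (if i = p ∨ i = q then (if a.2 = true then (1 : ℝ) else 0)
      else 1) = if i = p ∨ i = q then ε else 1 := by
    intro i
    split_ifs with h
    · exact exp_wt_true ε
    · simp only [mul_one]
      exact sum_wt ε
  simp only [h3]
  rw [Finset.prod_ite, Finset.prod_const_one, mul_one]
  have : (Finset.univ.filter fun i : Fin N => i = p ∨ i = q) = {p, q} := by
    ext i
    simp
  rw [this, Finset.prod_pair hpq]
  ring

lemma exp_er {N : ℕ} (ω : Fin N → Smp × Bool) (p : ℕ) (hp : p < N) :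
    er (fun i => eta (ω i)) p = (ω ⟨p, hp⟩).2 := by
  unfold er
  rw [dif_pos hp]
  have h : ∀ (a : Smp) (b : Option Bool), (yB a b).2.2 = b := by
    intro a b
    unfold yB
    split_ifs <;> rfl
  show (eta (ω ⟨p, hp⟩)).2.2.isNone = _
  unfold eta
  rw [h]
  cases (ω ⟨p, hp⟩).2 <;> simp

lemma exp_pairs_card (s m : ℕ) :
    ∑ p ∈ Finset.Ico s (s + m), ∑ q ∈ Finset.Ico s (s + m), (if p < q then (1 : ℝ) else 0) ≤
      (m : ℝ) ^ 2 / 2 := by
  have h1 : ∑ p ∈ Finset.Ico s (s + m), ∑ q ∈ Finset.Ico s (s + m), (if p < q then (1 : ℝ) else 0) =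
      ∑ p ∈ Finset.Ico s (s + m), ∑ q ∈ Finset.Ico s (s + m), (if q < p then (1 : ℝ) else 0) :=
    Finset.sum_comm
  have h2 : ∑ p ∈ Finset.Ico s (s + m), ∑ q ∈ Finset.Ico s (s + m), (if p < q then (1 : ℝ) else 0) +
      ∑ p ∈ Finset.Ico s (s + m), ∑ q ∈ Finset.Ico s (s + m), (if q < p then (1 : ℝ) else 0) ≤
      ∑ p ∈ Finset.Ico s (s + m), ∑ q ∈ Finset.Ico s (s + m), (1 : ℝ) := by
    rw [← Finset.sum_add_distrib]
    apply Finset.sum_le_sum
    intro p _
    rw [← Finset.sum_add_distrib]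
    apply Finset.sum_le_sum
    intro q _
    split_ifs with h3 h4
    · exact absurd h4 (by omega)
    · norm_num
    · norm_num
    · norm_num
  have h3 : ∑ p ∈ Finset.Ico s (s + m), ∑ q ∈ Finset.Ico s (s + m), (1 : ℝ) = (m : ℝ) ^ 2 := by
    simp only [Finset.sum_const, Nat.card_Ico, nsmul_eq_mul, mul_one]
    have : s + m - s = m := by omega
    rw [this]
    ring
  linarith

lemma exp_pairs {N : ℕ} (ε : ℝ) (s m : ℕ) (hs : s + m ≤ N) :
    ∑ ω : Fin N → Smp × Bool, (∏ i, wt ε (ω i)) *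
      (pairs (er (fun i => eta (ω i))) s m : ℝ) ≤ (m : ℝ) ^ 2 / 2 * ε ^ 2 := by
  have h1 : ∀ ω : Fin N → Smp × Bool, (∏ i, wt ε (ω i)) *
      (pairs (er (fun i => eta (ω i))) s m : ℝ) =
      ∑ p ∈ Finset.Ico s (s + m), ∑ q ∈ Finset.Ico s (s + m), (∏ i, wt ε (ω i)) *
        (if p < q ∧ er (fun i => eta (ω i)) p = true ∧ er (fun i => eta (ω i)) q = true
          then (1 : ℝ) else 0) := by
    intro ω
    unfold pairs
    push_cast
    rw [Finset.mul_sum]
    apply Finset.sum_congr rfl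
    intro p _
    rw [Finset.mul_sum]
  simp only [h1]
  rw [Finset.sum_comm]
  have h2 : ∀ p ∈ Finset.Ico s (s + m), ∑ ω : Fin N → Smp × Bool,
      ∑ q ∈ Finset.Ico s (s + m), (∏ i, wt ε (ω i)) *
        (if p < q ∧ er (fun i => eta (ω i)) p = true ∧ er (fun i => eta (ω i)) q = true
          then (1 : ℝ) else 0) = ∑ q ∈ Finset.Ico s (s + m), (if p < q then (1 : ℝ) else 0) * ε ^ 2 := by
    intro p hp
    rw [Finset.sum_comm]
    apply Finset.sum_congr rfl
    intro q hq
    rw [Finset.mem_Ico] at hp hq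
    have hpN : p < N := by omega
    have hqN : q < N := by omega
    by_cases hpq : p < q
    · rw [if_pos hpq, one_mul, ← exp_two ε ⟨p, hpN⟩ ⟨q, hqN⟩ (by
        intro h
        rw [Fin.mk.injEq] at h
        omega)]
      apply Finset.sum_congr rfl
      intro ω _
      rw [exp_er ω p hpN, exp_er ω q hqN]
      congr 1
      by_cases h3 : (ω ⟨p, hpN⟩).2 = true <;> by_cases h4 : (ω ⟨q, hqN⟩).2 = true <;>
        simp [hpq, h3, h4]
    · rw [if_neg hpq, zero_mul]
      apply Finset.sum_eq_zero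
      intro ω _
      rw [if_neg (fun h => hpq h.1), mul_zero]
  rw [Finset.sum_congr rfl h2]
  have h3 := exp_pairs_card s m
  have h4 : ∑ p ∈ Finset.Ico s (s + m), ∑ q ∈ Finset.Ico s (s + m),
      (if p < q then (1 : ℝ) else 0) * ε ^ 2 =
      (∑ p ∈ Finset.Ico s (s + m), ∑ q ∈ Finset.Ico s (s + m), (if p < q then (1 : ℝ) else 0)) *
        ε ^ 2 := by
    rw [Finset.sum_mul]
    apply Finset.sum_congr rfl
    intro p _
    rw [Finset.sum_mul]
  rw [h4]
  exact mul_le_mul_of_nonneg_right h3 (sq_nonneg ε)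

lemma exp_Phi {N : ℕ} (ε : ℝ) (h : ℕ) : ∀ s : ℕ, s + 2 ^ h ≤ N →
    ∑ ω : Fin N → Smp × Bool, (∏ i, wt ε (ω i)) *
      (Phi (er (fun i => eta (ω i))) h s : ℝ) ≤ (4 : ℝ) ^ h * ε ^ 2 := by
  induction h with
  | zero =>
    intro s _
    simp only [Phi, Nat.cast_zero, mul_zero, Finset.sum_const_zero, pow_zero, one_mul]
    exact sq_nonneg ε
  | succ h ih =>
    intro s hs
    have h1 := exp_pairs (N := N) ε s (2 ^ (h + 1)) hs
    have h2 := ih s (by rw [pow_succ] at hs; omega)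
    have h3 := ih (s + 2 ^ h) (by rw [pow_succ] at hs; omega)
    have h4 : ∀ ω : Fin N → Smp × Bool, (∏ i, wt ε (ω i)) *
        (Phi (er (fun i => eta (ω i))) (h + 1) s : ℝ) =
        (∏ i, wt ε (ω i)) * (pairs (er (fun i => eta (ω i))) s (2 ^ (h + 1)) : ℝ) +
        (∏ i, wt ε (ω i)) * (Phi (er (fun i => eta (ω i))) h s : ℝ) +
        (∏ i, wt ε (ω i)) * (Phi (er (fun i => eta (ω i))) h (s + 2 ^ h) : ℝ) := by
      intro ω
      simp only [Phi]
      push_cast
      ring
    simp only [h4]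
    rw [Finset.sum_add_distrib, Finset.sum_add_distrib]
    have h5 : (((2 ^ (h + 1) : ℕ) : ℝ)) ^ 2 / 2 = 2 * 4 ^ h := by
      push_cast
      have h6 : (4 : ℝ) ^ h = 2 ^ h * 2 ^ h := by
        rw [← mul_pow]
        norm_num
      rw [pow_succ, h6]
      ring
    rw [h5] at h1
    have h7 : (4 : ℝ) ^ (h + 1) = 4 * 4 ^ h := by ring
    rw [h7]
    linarith

theorem expect_phi (ε : ℝ) (h0 : 0 ≤ ε) (h1 : ε ≤ 1) (h : ℕ) :
    ∑ ω : Fin (2 ^ h) → Smp × Bool, (∏ i, wt ε (ω i)) *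
      (Phi (er (fun i => eta (ω i))) h 0 : ℝ) ≤ ((2 : ℝ) ^ h * ε) ^ 2 := by
  have h2 := exp_Phi (N := 2 ^ h) ε h 0 (by simp)
  refine h2.trans (le_of_eq ?_)
  rw [mul_pow, ← pow_mul, mul_comm h 2, pow_mul]
  norm_num

end Pool.Agent.H32.Ext
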