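import Pool.Agent.H32.Ext.Ex

/-! EXT Name: the naming stage (Bob names `n` elements of `Fin 32` with `5 n` bits, Alice
verifies; fallback: full exchange). -/

namespace Pool.Agent.H32.Ext

open scoped BigOperators

namespace NameAux

variable {X Y : Type}

/-- Bob sends `k` bits -/
def sendBob (X : Type) {Y : Type} : (k : ℕ) → (Y → Fin k → Bool) → DProt X Y (Fin k → Bool)
  | 0, _ => .leaf Fin.elim0
  | k + 1, f => .bob (fun y => f y 0) (fun b =>
      (sendBob X k (fun y i => f y i.succ)).bind (fun v => .leaf (Fin.cons b v)))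

/-- Alice sends `k` bits -/
def sendAlice {X : Type} (Y : Type) : (k : ℕ) → (X → Fin k → Bool) → DProt X Y (Fin k → Bool)
  | 0, _ => .leaf Fin.elim0
  | k + 1, f => .alice (fun x => f x 0) (fun b =>
      (sendAlice Y k (fun x i => f x i.succ)).bind (fun v => .leaf (Fin.cons b v)))

theorem run_sendBob (k : ℕ) (f : Y → Fin k → Bool) (x : X) (y : Y) :
    (sendBob X k f).run x y = f y := by
  induction k with
  | zero => exact Subsingleton.elim _ _
  | succ k ih =>
    change ((sendBob X k (fun y i => f y i.succ)).bind
      (fun v => .leaf (Fin.cons (f y 0) v : Fin (k + 1) → Bool))).run x y = f y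
    rw [DProt.run_bind, ih]
    exact Fin.cons_self_tail (f y)

theorem cost_sendBob (k : ℕ) (f : Y → Fin k → Bool) (x : X) (y : Y) :
    (sendBob X k f).cost x y = k := by
  induction k with
  | zero => rfl
  | succ k ih =>
    change ((sendBob X k (fun y i => f y i.succ)).bind
      (fun v => .leaf (Fin.cons (f y 0) v : Fin (k + 1) → Bool))).cost x y + 1 = k + 1
    rw [DProt.cost_bind, ih]
    rfl

theorem run_sendAlice (k : ℕ) (f : X → Fin k → Bool) (x : X) (y : Y) :
    (sendAlice Y k f).run x y = f x := by
  induction k with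
  | zero => exact Subsingleton.elim _ _
  | succ k ih =>
    change ((sendAlice Y k (fun x i => f x i.succ)).bind
      (fun v => .leaf (Fin.cons (f x 0) v : Fin (k + 1) → Bool))).run x y = f x
    rw [DProt.run_bind, ih]
    exact Fin.cons_self_tail (f x)

/-- sending an element of a finite type -/
theorem exists_code (V : Type) [Fintype V] [Nonempty V] :
    ∃ (k : ℕ) (j : V → Fin k → Bool) (d : (Fin k → Bool) → V), ∀ v, d (j v) = v := by
  classical
  let e := Fintype.equivFin V
  have hinj : Function.Injective (fun (v : V) (i : Fin (Fintype.card V)) => decide (e v = i)) := by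
    intro v w h
    have h1 := congrFun h (e w)
    simp only [decide_true, decide_eq_true_eq] at h1
    exact e.injective h1
  exact ⟨_, _, Function.invFun (fun (v : V) (i : Fin (Fintype.card V)) => decide (e v = i)),
    Function.leftInverse_invFun hinj⟩

end NameAux

open NameAux in
theorem naming (n : ℕ) (g : (Fin n → Y0) → Fin n → Bool) :
    ∃ D : DProt (Fin n → X0) (Fin n → Y0) (Fin n → Bool),
      (∀ x y, D.run x y = powF F0 n x y) ∧
      ∀ x y, (∀ i, bsel (y i) (g y i) = (x i).1 ∨ bsel (y i) (g y i) = (x i).2.1) →
        D.cost x y ≤ 5 * n + 1 := by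
  classical
  have hcard : Fintype.card (Fin n → Fin 32) = Fintype.card (Fin (5 * n) → Bool) := by
    simp only [Fintype.card_fun, Fintype.card_fin, Fintype.card_bool]
    rw [pow_mul]
    norm_num
  let e : (Fin n → Fin 32) ≃ (Fin (5 * n) → Bool) := Fintype.equivOfCardEq hcard
  obtain ⟨kx, jx, dx, hx⟩ := exists_code (Fin n → X0)
  let names : DProt (Fin n → X0) (Fin n → Y0) (Fin (5 * n) → Bool) :=
    sendBob (Fin n → X0) (5 * n) (fun y => e (fun i => bsel (y i) (g y i)))
  let full : DProt (Fin n → X0) (Fin n → Y0) (Fin n → Bool) :=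
    (sendAlice (Fin n → Y0) kx jx).bind (fun w =>
      sendBob (Fin n → X0) n (fun y => powF F0 n (dx w) y))
  let cont : (Fin (5 * n) → Bool) → DProt (Fin n → X0) (Fin n → Y0) (Fin n → Bool) := fun w =>
    .alice (fun x => decide (∀ i, e.symm w i = (x i).1 ∨ e.symm w i = (x i).2.1))
      (fun b => if b then .leaf (fun _ => true) else full)
  have hfull : ∀ x y, full.run x y = powF F0 n x y := by
    intro x y
    change ((sendAlice (Fin n → Y0) kx jx).bind (fun w =>
      sendBob (Fin n → X0) n (fun y => powF F0 n (dx w) y))).run x y = _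
    rw [DProt.run_bind, run_sendAlice, run_sendBob, hx]
  refine ⟨names.bind cont, fun x y => ?_, fun x y h => ?_⟩
  · rw [DProt.run_bind, run_sendBob]
    change (if decide (∀ i, e.symm (e (fun i => bsel (y i) (g y i))) i = (x i).1 ∨
      e.symm (e (fun i => bsel (y i) (g y i))) i = (x i).2.1) = true then
        (.leaf (fun _ => true) : DProt (Fin n → X0) (Fin n → Y0) (Fin n → Bool))
      else full).run x y = _
    rw [Equiv.symm_apply_apply]
    by_cases h : ∀ i, bsel (y i) (g y i) = (x i).1 ∨ bsel (y i) (g y i) = (x i).2.1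
    · rw [decide_eq_true h, if_pos rfl]
      funext i
      change true = F0 (x i) (y i)
      symm
      unfold F0
      rw [decide_eq_true_eq]
      have h1 := h i
      unfold bsel at h1
      split_ifs at h1
      · rcases h1 with h1 | h1
        · exact Or.inr (Or.inl h1.symm)
        · exact Or.inr (Or.inr (Or.inr h1.symm))
      · rcases h1 with h1 | h1
        · exact Or.inl h1.symm
        · exact Or.inr (Or.inr (Or.inl h1.symm))
    · rw [decide_eq_false h, if_neg (by simp)]
      exact hfull x y
  · rw [DProt.cost_bind, cost_sendBob, run_sendBob]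
    change 5 * n + ((if decide (∀ i, e.symm (e (fun i => bsel (y i) (g y i))) i = (x i).1 ∨
      e.symm (e (fun i => bsel (y i) (g y i))) i = (x i).2.1) = true then
        (.leaf (fun _ => true) : DProt (Fin n → X0) (Fin n → Y0) (Fin n → Bool))
      else full).cost x y + 1) ≤ _
    rw [Equiv.symm_apply_apply, decide_eq_true h, if_pos rfl]
    exact le_rfl

end Pool.Agent.H32.Ext
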