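import Pool.Agent.H32.Ext.Basic

/-! EXT Sub: subadditivity of the expected communication of `n` copies. -/

namespace Pool.Agent.H32.Ext

open scoped BigOperators

namespace Prot

variable {X Y O : Type}

/-- expected number of bits on given inputs -/
noncomputable def eb (P : Prot X Y O) (x : X) (y : Y) : ℝ :=
  ∑ π : P.Leaf, P.pr x y π * (P.bits π : ℝ)

theorem eb_leaf (o : O) (x : X) (y : Y) : (Prot.leaf o : Prot X Y O).eb x y = 0 := by
  unfold eb
  refine Finset.sum_eq_zero fun π _ => ?_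
  simp [bits]

theorem eb_alice (p : X → unitInterval) (l r : Prot X Y O) (x : X) (y : Y) :
    (Prot.alice p l r).eb x y = (1 - (p x : ℝ)) * (l.eb x y + 1) + (p x : ℝ) * (r.eb x y + 1) := by
  have hl : l.eb x y + 1 = ∑ π : l.Leaf, l.pr x y π * ((l.bits π : ℝ) + 1) := by
    simp only [mul_add, mul_one, Finset.sum_add_distrib, sum_pr, eb]
  have hr : r.eb x y + 1 = ∑ π : r.Leaf, r.pr x y π * ((r.bits π : ℝ) + 1) := by
    simp only [mul_add, mul_one, Finset.sum_add_distrib, sum_pr, eb]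
  rw [hl, hr, Finset.mul_sum, Finset.mul_sum]
  change ∑ π : (l.Leaf ⊕ r.Leaf), _ = _
  rw [Fintype.sum_sum_type]
  congr 1
  · refine Finset.sum_congr rfl fun π _ => ?_
    simp only [pr, bits]
    push_cast
    ring
  · refine Finset.sum_congr rfl fun π _ => ?_
    simp only [pr, bits]
    push_cast
    ring

theorem eb_bob (p : Y → unitInterval) (l r : Prot X Y O) (x : X) (y : Y) :
    (Prot.bob p l r).eb x y = (1 - (p y : ℝ)) * (l.eb x y + 1) + (p y : ℝ) * (r.eb x y + 1) := by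
  have hl : l.eb x y + 1 = ∑ π : l.Leaf, l.pr x y π * ((l.bits π : ℝ) + 1) := by
    simp only [mul_add, mul_one, Finset.sum_add_distrib, sum_pr, eb]
  have hr : r.eb x y + 1 = ∑ π : r.Leaf, r.pr x y π * ((r.bits π : ℝ) + 1) := by
    simp only [mul_add, mul_one, Finset.sum_add_distrib, sum_pr, eb]
  rw [hl, hr, Finset.mul_sum, Finset.mul_sum]
  change ∑ π : (l.Leaf ⊕ r.Leaf), _ = _
  rw [Fintype.sum_sum_type]
  congr 1
  · refine Finset.sum_congr rfl fun π _ => ?_
    simp only [pr, bits]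
    push_cast
    ring
  · refine Finset.sum_congr rfl fun π _ => ?_
    simp only [pr, bits]
    push_cast
    ring

theorem eb_coin (p : unitInterval) (l r : Prot X Y O) (x : X) (y : Y) :
    (Prot.coin p l r).eb x y = (1 - (p : ℝ)) * l.eb x y + (p : ℝ) * r.eb x y := by
  unfold eb
  rw [Finset.mul_sum, Finset.mul_sum]
  change ∑ π : (l.Leaf ⊕ r.Leaf), _ = _
  rw [Fintype.sum_sum_type]
  congr 1
  · refine Finset.sum_congr rfl fun π _ => ?_
    simp only [pr, bits]
    ring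
  · refine Finset.sum_congr rfl fun π _ => ?_
    simp only [pr, bits]
    ring

/-- sequential composition -/
def bnd {O' : Type} : Prot X Y O → (O → Prot X Y O') → Prot X Y O'
  | leaf o, g => g o
  | alice p l r, g => alice p (l.bnd g) (r.bnd g)
  | bob p l r, g => bob p (l.bnd g) (r.bnd g)
  | coin p l r, g => coin p (l.bnd g) (r.bnd g)

/-- change of inputs -/
def cmap {X' Y' : Type} (φ : X' → X) (ψ : Y' → Y) : Prot X Y O → Prot X' Y' O
  | leaf o => leaf o
  | alice p l r => alice (fun x => p (φ x)) (l.cmap φ ψ) (r.cmap φ ψ)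
  | bob p l r => bob (fun y => p (ψ y)) (l.cmap φ ψ) (r.cmap φ ψ)
  | coin p l r => coin p (l.cmap φ ψ) (r.cmap φ ψ)

theorem eb_bnd {O' : Type} (P : Prot X Y O) (g : O → Prot X Y O') (x : X) (y : Y) (c : ℝ)
    (hc : ∀ o, (g o).eb x y = c) : (P.bnd g).eb x y = P.eb x y + c := by
  induction P with
  | leaf o => simp [bnd, eb_leaf, hc]
  | alice p l r ihl ihr => rw [bnd, eb_alice, eb_alice, ihl, ihr]; ring
  | bob p l r ihl ihr => rw [bnd, eb_bob, eb_bob, ihl, ihr]; ring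
  | coin p l r ihl ihr => rw [bnd, eb_coin, eb_coin, ihl, ihr]; ring

theorem eb_cmap {X' Y' : Type} (φ : X' → X) (ψ : Y' → Y) (P : Prot X Y O) (x : X') (y : Y') :
    (P.cmap φ ψ).eb x y = P.eb (φ x) (ψ y) := by
  induction P with
  | leaf o => simp [cmap, eb_leaf]
  | alice p l r ihl ihr => rw [cmap, eb_alice, eb_alice, ihl, ihr]
  | bob p l r ihl ihr => rw [cmap, eb_bob, eb_bob, ihl, ihr]
  | coin p l r ihl ihr => rw [cmap, eb_coin, eb_coin, ihl, ihr]

theorem leaf_cmap {X' Y' : Type} (φ : X' → X) (ψ : Y' → Y) (P : Prot X Y O)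
    (π : (P.cmap φ ψ).Leaf) :
    ∃ π' : P.Leaf, (P.cmap φ ψ).out π = P.out π' ∧
      ∀ x y, (P.cmap φ ψ).pr x y π = P.pr (φ x) (ψ y) π' := by
  induction P with
  | leaf o => exact ⟨(), rfl, fun _ _ => rfl⟩
  | alice p l r ihl ihr =>
    rcases π with π | π
    · obtain ⟨π', h1, h2⟩ := ihl π
      exact ⟨Sum.inl π', h1, fun x y => by
        change (1 - (p (φ x) : ℝ)) * _ = (1 - (p (φ x) : ℝ)) * _
        rw [h2]⟩
    · obtain ⟨π', h1, h2⟩ := ihr π
      exact ⟨Sum.inr π', h1, fun x y => by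
        change (p (φ x) : ℝ) * _ = (p (φ x) : ℝ) * _
        rw [h2]⟩
  | bob p l r ihl ihr =>
    rcases π with π | π
    · obtain ⟨π', h1, h2⟩ := ihl π
      exact ⟨Sum.inl π', h1, fun x y => by
        change (1 - (p (ψ y) : ℝ)) * _ = (1 - (p (ψ y) : ℝ)) * _
        rw [h2]⟩
    · obtain ⟨π', h1, h2⟩ := ihr π
      exact ⟨Sum.inr π', h1, fun x y => by
        change (p (ψ y) : ℝ) * _ = (p (ψ y) : ℝ) * _
        rw [h2]⟩
  | coin p l r ihl ihr =>
    rcases π with π | π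
    · obtain ⟨π', h1, h2⟩ := ihl π
      exact ⟨Sum.inl π', h1, fun x y => by
        change (1 - (p : ℝ)) * _ = (1 - (p : ℝ)) * _
        rw [h2]⟩
    · obtain ⟨π', h1, h2⟩ := ihr π
      exact ⟨Sum.inr π', h1, fun x y => by
        change (p : ℝ) * _ = (p : ℝ) * _
        rw [h2]⟩

theorem leaf_bnd {O' : Type} (P : Prot X Y O) (g : O → Prot X Y O') (π : (P.bnd g).Leaf) :
    ∃ (π1 : P.Leaf) (π2 : (g (P.out π1)).Leaf), (P.bnd g).out π = (g (P.out π1)).out π2 ∧
      ∀ x y, (P.bnd g).pr x y π = P.pr x y π1 * (g (P.out π1)).pr x y π2 := by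
  induction P with
  | leaf o => exact ⟨(), π, rfl, fun x y => (one_mul _).symm⟩
  | alice p l r ihl ihr =>
    rcases π with π | π
    · obtain ⟨π1, π2, h1, h2⟩ := ihl π
      exact ⟨Sum.inl π1, π2, h1, fun x y => by
        change (1 - (p x : ℝ)) * _ = ((1 - (p x : ℝ)) * _) * _
        rw [h2, mul_assoc]; rfl⟩
    · obtain ⟨π1, π2, h1, h2⟩ := ihr π
      exact ⟨Sum.inr π1, π2, h1, fun x y => by
        change (p x : ℝ) * _ = ((p x : ℝ) * _) * _
        rw [h2, mul_assoc]; rfl⟩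
  | bob p l r ihl ihr =>
    rcases π with π | π
    · obtain ⟨π1, π2, h1, h2⟩ := ihl π
      exact ⟨Sum.inl π1, π2, h1, fun x y => by
        change (1 - (p y : ℝ)) * _ = ((1 - (p y : ℝ)) * _) * _
        rw [h2, mul_assoc]; rfl⟩
    · obtain ⟨π1, π2, h1, h2⟩ := ihr π
      exact ⟨Sum.inr π1, π2, h1, fun x y => by
        change (p y : ℝ) * _ = ((p y : ℝ) * _) * _
        rw [h2, mul_assoc]; rfl⟩
  | coin p l r ihl ihr =>
    rcases π with π | π
    · obtain ⟨π1, π2, h1, h2⟩ := ihl π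
      exact ⟨Sum.inl π1, π2, h1, fun x y => by
        change (1 - (p : ℝ)) * _ = ((1 - (p : ℝ)) * _) * _
        rw [h2, mul_assoc]; rfl⟩
    · obtain ⟨π1, π2, h1, h2⟩ := ihr π
      exact ⟨Sum.inr π1, π2, h1, fun x y => by
        change (p : ℝ) * _ = ((p : ℝ) * _) * _
        rw [h2, mul_assoc]; rfl⟩

theorem eb_nonneg (P : Prot X Y O) (x : X) (y : Y) : 0 ≤ P.eb x y :=
  Finset.sum_nonneg fun π _ => mul_nonneg (pr_nonneg P x y π) (Nat.cast_nonneg _)

end Prot

variable {X Y : Type} [Fintype X] [Fintype Y]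

theorem avgBits_eq_eb {O : Type} (P : Prot X Y O) (μ : X → Y → ℝ) :
    P.avgBits μ = ∑ x, ∑ y, μ x y * P.eb x y := rfl

theorem avgBits_nonneg {O : Type} (P : Prot X Y O) (μ : X → Y → ℝ) (hμ : ∀ x y, 0 ≤ μ x y) :
    0 ≤ P.avgBits μ := by
  rw [avgBits_eq_eb]
  exact Finset.sum_nonneg fun x _ => Finset.sum_nonneg fun y _ =>
    mul_nonneg (hμ x y) (P.eb_nonneg x y)

omit [Fintype X] [Fintype Y] in
theorem powD_nonneg (μ : X → Y → ℝ) (hμ : ∀ x y, 0 ≤ μ x y) (n : ℕ) (x : Fin n → X)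
    (y : Fin n → Y) : 0 ≤ powD μ n x y :=
  Finset.prod_nonneg fun _ _ => hμ _ _

theorem CCavg_nonneg (F : X → Y → Bool) (μ : X → Y → ℝ) (hμ : ∀ x y, 0 ≤ μ x y) (n : ℕ) :
    0 ≤ CCavg F μ n := by
  refine Real.sInf_nonneg ?_
  rintro v ⟨P, -, rfl⟩
  exact avgBits_nonneg P _ (powD_nonneg μ hμ n)

theorem CCavg_le (F : X → Y → Bool) (μ : X → Y → ℝ) (hμ : ∀ x y, 0 ≤ μ x y) (n : ℕ)
    (P : Prot (Fin n → X) (Fin n → Y) (Fin n → Bool)) (hP : P.ZeroError (powF F n)) :
    CCavg F μ n ≤ P.avgBits (powD μ n) := by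
  refine csInf_le ⟨0, ?_⟩ ⟨P, hP, rfl⟩
  rintro v ⟨P, -, rfl⟩
  exact avgBits_nonneg P _ (powD_nonneg μ hμ n)

theorem sum_powD (μ : X → Y → ℝ) (h1 : ∑ x, ∑ y, μ x y = 1) (n : ℕ) :
    ∑ x : Fin n → X, ∑ y : Fin n → Y, powD μ n x y = 1 := by
  classical
  rw [← Fintype.sum_prod_type' (f := fun (x : Fin n → X) (y : Fin n → Y) => powD μ n x y)]
  rw [← (Equiv.arrowProdEquivProdArrow (Fin n) (fun _ => X) (fun _ => Y)).sum_comp]
  have h2 : ∏ _i : Fin n, ∑ p : X × Y, μ p.1 p.2 = 1 := by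
    refine Finset.prod_eq_one fun i _ => ?_
    rw [Fintype.sum_prod_type]
    exact h1
  rw [Finset.prod_univ_sum, Fintype.piFinset_univ] at h2
  rw [← h2]
  rfl

/-- one party sends its input -/
theorem exists_DProt_alice {X Y O : Type} [Inhabited O] (s : Finset X) (k : X → DProt X Y O) :
    ∃ D : DProt X Y O, ∀ x ∈ s, ∀ y, D.run x y = (k x).run x y := by
  classical
  induction s using Finset.induction_on with
  | empty => exact ⟨.leaf default, fun x hx => absurd hx (Finset.notMem_empty x)⟩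
  | insert a s _ ih =>
    obtain ⟨D, hD⟩ := ih
    refine ⟨.alice (fun x => decide (x = a)) (fun b => if b then k a else D), fun x hx y => ?_⟩
    by_cases h : x = a
    · subst h
      simp [DProt.run]
    · simp only [DProt.run, h, decide_false, Bool.false_eq_true, if_false]
      exact hD x ((Finset.mem_insert.1 hx).resolve_left h) y

theorem exists_DProt_bob {X Y O : Type} [Inhabited O] (s : Finset Y) (k : Y → DProt X Y O) :
    ∃ D : DProt X Y O, ∀ y ∈ s, ∀ x, D.run x y = (k y).run x y := by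
  classical
  induction s using Finset.induction_on with
  | empty => exact ⟨.leaf default, fun x hx => absurd hx (Finset.notMem_empty x)⟩
  | insert a s _ ih =>
    obtain ⟨D, hD⟩ := ih
    refine ⟨.bob (fun x => decide (x = a)) (fun b => if b then k a else D), fun x hx y => ?_⟩
    by_cases h : x = a
    · subst h
      simp [DProt.run]
    · simp only [DProt.run, h, decide_false, Bool.false_eq_true, if_false]
      exact hD x ((Finset.mem_insert.1 hx).resolve_left h) y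

theorem exists_DProt {X Y O : Type} [Fintype X] [Fintype Y] [Inhabited O] (G : X → Y → O) :
    ∃ D : DProt X Y O, ∀ x y, D.run x y = G x y := by
  have h1 : ∀ x : X, ∃ D : DProt X Y O, ∀ y ∈ (Finset.univ : Finset Y), ∀ x',
      D.run x' y = (DProt.leaf (G x y) : DProt X Y O).run x' y := fun x =>
    exists_DProt_bob (X := X) Finset.univ (fun y => DProt.leaf (G x y))
  choose k hk using h1
  obtain ⟨D, hD⟩ := exists_DProt_alice (Finset.univ : Finset X) k
  exact ⟨D, fun x y => by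
    rw [hD x (Finset.mem_univ _) y, hk x y (Finset.mem_univ _) x]
    rfl⟩

theorem CCset_nonempty (F : X → Y → Bool) (μ : X → Y → ℝ) (n : ℕ) :
    {v | ∃ P : Prot (Fin n → X) (Fin n → Y) (Fin n → Bool),
      P.ZeroError (powF F n) ∧ v = P.avgBits (powD μ n)}.Nonempty := by
  classical
  obtain ⟨D, hD⟩ := exists_DProt (powF F n)
  exact ⟨_, D.toProt, DProt.toProt_zeroError D _ hD, rfl⟩

omit [Fintype X] [Fintype Y] in
theorem powD_append (μ : X → Y → ℝ) (m n : ℕ) (x1 : Fin m → X) (x2 : Fin n → X)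
    (y1 : Fin m → Y) (y2 : Fin n → Y) :
    powD μ (m + n) (Fin.append x1 x2) (Fin.append y1 y2) = powD μ m x1 y1 * powD μ n x2 y2 := by
  unfold powD
  rw [Fin.prod_univ_add]
  simp only [Fin.append_left, Fin.append_right]

/-- the product protocol -/
noncomputable def prodProt {X Y : Type} {m n : ℕ}
    (P1 : Prot (Fin m → X) (Fin m → Y) (Fin m → Bool))
    (P2 : Prot (Fin n → X) (Fin n → Y) (Fin n → Bool)) :
    Prot (Fin (m + n) → X) (Fin (m + n) → Y) (Fin (m + n) → Bool) :=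
  (P1.cmap (fun x i => x (Fin.castAdd n i)) (fun y i => y (Fin.castAdd n i))).bnd fun o1 =>
    (P2.cmap (fun x i => x (Fin.natAdd m i)) (fun y i => y (Fin.natAdd m i))).bnd fun o2 =>
      Prot.leaf (Fin.append o1 o2)

theorem prodProt_zeroError {X Y : Type} (F : X → Y → Bool) {m n : ℕ}
    (P1 : Prot (Fin m → X) (Fin m → Y) (Fin m → Bool))
    (P2 : Prot (Fin n → X) (Fin n → Y) (Fin n → Bool)) (h1 : P1.ZeroError (powF F m))
    (h2 : P2.ZeroError (powF F n)) : (prodProt P1 P2).ZeroError (powF F (m + n)) := by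
  intro x y π hπ
  obtain ⟨π1, π2, e1, e2⟩ := Prot.leaf_bnd _ _ π
  obtain ⟨π3, π4, e3, e4⟩ := Prot.leaf_bnd _ _ π2
  obtain ⟨π5, e5, e6⟩ := Prot.leaf_cmap _ _ P1 π1
  obtain ⟨π6, e7, e8⟩ := Prot.leaf_cmap _ _ P2 π3
  unfold prodProt at hπ
  rw [e2 x y, e4 x y, e6, e8] at hπ
  have n5 := P1.pr_nonneg (fun i => x (Fin.castAdd n i)) (fun i => y (Fin.castAdd n i)) π5
  have n6 := P2.pr_nonneg (fun i => x (Fin.natAdd m i)) (fun i => y (Fin.natAdd m i)) π6
  have p5 : 0 < P1.pr (fun i => x (Fin.castAdd n i)) (fun i => y (Fin.castAdd n i)) π5 := by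
    rcases n5.lt_or_eq with h | h
    · exact h
    · rw [← h, zero_mul] at hπ
      exact absurd hπ (lt_irrefl _)
  have p6 : 0 < P2.pr (fun i => x (Fin.natAdd m i)) (fun i => y (Fin.natAdd m i)) π6 := by
    rcases n6.lt_or_eq with h | h
    · exact h
    · rw [← h, zero_mul, mul_zero] at hπ
      exact absurd hπ (lt_irrefl _)
  unfold prodProt
  rw [e1, e3]
  change Fin.append _ _ = _
  rw [e5, e7, h1 _ _ _ p5, h2 _ _ _ p6]
  funext i
  refine Fin.addCases (fun j => ?_) (fun j => ?_) i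
  · rw [Fin.append_left]; rfl
  · rw [Fin.append_right]; rfl

theorem prodProt_eb {X Y : Type} {m n : ℕ}
    (P1 : Prot (Fin m → X) (Fin m → Y) (Fin m → Bool))
    (P2 : Prot (Fin n → X) (Fin n → Y) (Fin n → Bool)) (x : Fin (m + n) → X)
    (y : Fin (m + n) → Y) :
    (prodProt P1 P2).eb x y =
      P1.eb (fun i => x (Fin.castAdd n i)) (fun i => y (Fin.castAdd n i)) +
      P2.eb (fun i => x (Fin.natAdd m i)) (fun i => y (Fin.natAdd m i)) := by
  unfold prodProt
  rw [Prot.eb_bnd _ _ x y (P2.eb (fun i => x (Fin.natAdd m i)) (fun i => y (Fin.natAdd m i))),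
    Prot.eb_cmap]
  intro o
  rw [Prot.eb_bnd _ _ x y 0 (fun o => Prot.eb_leaf _ x y), Prot.eb_cmap, add_zero]

theorem prodProt_avgBits (μ : X → Y → ℝ) (h1 : ∑ x, ∑ y, μ x y = 1) {m n : ℕ}
    (P1 : Prot (Fin m → X) (Fin m → Y) (Fin m → Bool))
    (P2 : Prot (Fin n → X) (Fin n → Y) (Fin n → Bool)) :
    (prodProt P1 P2).avgBits (powD μ (m + n)) =
      P1.avgBits (powD μ m) + P2.avgBits (powD μ n) := by
  rw [avgBits_eq_eb, avgBits_eq_eb, avgBits_eq_eb]
  rw [← (Fin.appendEquiv m n).sum_comp]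
  simp_rw [← (Fin.appendEquiv (α := Y) m n).sum_comp]
  rw [Fintype.sum_prod_type]
  simp_rw [Fintype.sum_prod_type]
  have key : ∀ (x1 : Fin m → X) (x2 : Fin n → X) (y1 : Fin m → Y) (y2 : Fin n → Y),
      powD μ (m + n) ((Fin.appendEquiv m n) (x1, x2)) ((Fin.appendEquiv m n) (y1, y2)) *
        (prodProt P1 P2).eb ((Fin.appendEquiv m n) (x1, x2)) ((Fin.appendEquiv m n) (y1, y2)) =
      (powD μ m x1 y1 * P1.eb x1 y1) * powD μ n x2 y2 +
        powD μ m x1 y1 * (powD μ n x2 y2 * P2.eb x2 y2) := by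
    intro x1 x2 y1 y2
    rw [prodProt_eb]
    have e1 : (Fin.appendEquiv m n) (x1, x2) = Fin.append x1 x2 := rfl
    have e2 : (Fin.appendEquiv m n) (y1, y2) = Fin.append y1 y2 := rfl
    rw [e1, e2, powD_append]
    simp only [Fin.append_left, Fin.append_right]
    ring
  simp_rw [key, Finset.sum_add_distrib]
  have s1 := sum_powD μ h1 m
  have s2 := sum_powD μ h1 n
  congr 1
  · refine Finset.sum_congr rfl fun x1 _ => ?_
    rw [Finset.sum_comm]
    refine Finset.sum_congr rfl fun y1 _ => ?_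
    simp_rw [← Finset.mul_sum]
    rw [s2, mul_one]
  · rw [Finset.sum_comm]
    refine Finset.sum_congr rfl fun x2 _ => ?_
    simp_rw [← Finset.mul_sum, ← Finset.sum_mul]
    rw [s1, one_mul]

theorem CCavg_add_le (F : X → Y → Bool) (μ : X → Y → ℝ) (hμ : ∀ x y, 0 ≤ μ x y)
    (h1 : ∑ x, ∑ y, μ x y = 1) (m n : ℕ) :
    CCavg F μ (m + n) ≤ CCavg F μ m + CCavg F μ n := by
  refine le_of_forall_pos_le_add fun ε hε => ?_
  obtain ⟨v1, ⟨P1, z1, rfl⟩, l1⟩ :=
    Real.lt_sInf_add_pos (CCset_nonempty F μ m) (half_pos hε)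
  obtain ⟨v2, ⟨P2, z2, rfl⟩, l2⟩ :=
    Real.lt_sInf_add_pos (CCset_nonempty F μ n) (half_pos hε)
  have h := CCavg_le F μ hμ (m + n) (prodProt P1 P2) (prodProt_zeroError F P1 P2 z1 z2)
  rw [prodProt_avgBits μ h1] at h
  have l1' : P1.avgBits (powD μ m) < CCavg F μ m + ε / 2 := l1
  have l2' : P2.avgBits (powD μ n) < CCavg F μ n + ε / 2 := l2
  linarith

end Pool.Agent.H32.Ext
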