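import Pool.Agent.H32.Ext.Link
import Pool.Agent.H32.Ext.Block
import Pool.Agent.H32.Ext.Name
import Pool.Agent.H32.Ext.Expect
import Pool.Agent.H32.Ext.Sub

/-! EXT Final: the upper bound and the conclusion. -/

namespace Pool.Agent.H32.Ext

open scoped BigOperators

theorem good_sample (ω : Smp × Bool) : Good (xi ω) (eta ω) := by
  obtain ⟨⟨σ, a, c⟩, b⟩ := ω
  cases a <;> cases b <;> cases c <;> simp [Good, xi, eta, xA, yB, bsel]

/-- Alice's bits as a sequence -/
def seqA {n : ℕ} (x : Fin n → X0) (p : ℕ) : Bool :=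
  if h : p < n then (x ⟨p, h⟩).2.2 else false

/-- Bob's bits as a sequence -/
def seqB {n : ℕ} (y : Fin n → Y0) (p : ℕ) : Option Bool :=
  if h : p < n then (y ⟨p, h⟩).2.2 else some false

theorem seqB_isNone {n : ℕ} (y : Fin n → Y0) : (fun p => (seqB y p).isNone) = er y := by
  funext p
  unfold seqB er
  split_ifs <;> rfl

theorem full_protocol (h : ℕ) :
    ∃ D : DProt (Fin (2 ^ h) → X0) (Fin (2 ^ h) → Y0) (Fin (2 ^ h) → Bool),
      (∀ x y, D.run x y = powF F0 (2 ^ h) x y) ∧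
      ∀ x y, (∀ i, Good (x i) (y i)) → D.cost x y ≤ 2 + 4 * Phi (er y) h 0 + (5 * 2 ^ h + 1) := by
  obtain ⟨D0, h1, h2⟩ := decode_block h 0
  choose Nm hN1 hN2 using fun dec : (ℕ → Option Bool) → ℕ → Bool =>
    naming (2 ^ h) (fun y i => dec (seqB y) i.val)
  refine ⟨(D0.comap seqA seqB).bind Nm, ?_, ?_⟩
  · intro x y
    rw [DProt.run_bind, hN1]
  · intro x y hg
    rw [DProt.cost_bind, DProt.cost_comap, DProt.run_comap]
    have b1 := h2 (seqA x) (seqB y)
    rw [seqB_isNone] at b1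
    have hc : ∀ p ∈ Finset.Ico 0 (0 + 2 ^ h), seqB y p = none ∨ seqB y p = some (seqA x p) := by
      intro p hp
      rw [Finset.mem_Ico] at hp
      have hp2 : p < 2 ^ h := by have := hp.2; omega
      unfold seqA seqB
      rw [dif_pos hp2, dif_pos hp2]
      exact (hg ⟨p, hp2⟩).1
    have hd := h1 (seqA x) (seqB y) hc
    have b2 := hN2 (D0.run (seqA x) (seqB y)) x y (by
      intro i
      have e : D0.run (seqA x) (seqB y) (seqB y) i.val = (x i).2.2 := by
        rw [hd i.val (by rw [Finset.mem_Ico]; exact ⟨Nat.zero_le _, by simpa using i.isLt⟩)]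
        unfold seqA
        rw [dif_pos i.isLt]
      simp only [e]
      exact (hg i).2)
    omega

section enc

variable {X Y : Type} [Fintype X] [Fintype Y] [DecidableEq X] [DecidableEq Y]
  (dX : X → X0) (dY : Y → Y0) (sX : X0 → X) (sY : Y0 → Y)

theorem sum_prod_wt (ε : ℝ) (n : ℕ) :
    ∑ ω : Fin n → Smp × Bool, (∏ i, wt ε (ω i)) = 1 := by
  rw [← Fintype.sum_pow, sum_wt, one_pow]

theorem wt_nonneg {ε : ℝ} (h0 : 0 ≤ ε) (h1 : ε ≤ 1) (ω : Smp × Bool) : 0 ≤ wt ε ω := by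
  unfold wt
  apply div_nonneg _ (Nat.cast_nonneg _)
  split_ifs
  · exact h0
  · linarith

theorem upper (hX : ∀ x, dX (sX x) = x) (hY : ∀ y, dY (sY y) = y) {ε : ℝ} (h0 : 0 ≤ ε)
    (h1 : ε ≤ 1) (h : ℕ) :
    CCavg (fun x y => F0 (dX x) (dY y))
      (push (wt ε) (fun ω => sX (xi ω)) (fun ω => sY (eta ω))) (2 ^ h) ≤
      5 * 2 ^ h + 3 + 4 * ((2 : ℝ) ^ h * ε) ^ 2 := by
  have hμ : ∀ x y, 0 ≤ push (wt ε) (fun ω => sX (xi ω)) (fun ω => sY (eta ω)) x y := by
    intro x y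
    unfold push
    apply Finset.sum_nonneg
    intro ω _
    split_ifs
    · exact wt_nonneg h0 h1 ω
    · exact le_rfl
  obtain ⟨D, hD1, hD2⟩ := full_protocol h
  set E : DProt (Fin (2 ^ h) → X) (Fin (2 ^ h) → Y) (Fin (2 ^ h) → Bool) :=
    D.comap (fun x i => dX (x i)) (fun y i => dY (y i)) with hE
  have hz : E.toProt.ZeroError (powF (fun x y => F0 (dX x) (dY y)) (2 ^ h)) := by
    apply DProt.toProt_zeroError
    intro x y
    rw [hE, DProt.run_comap, hD1]
    rfl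
  refine (CCavg_le _ _ hμ _ E.toProt hz).trans ?_
  unfold Prot.avgBits
  simp only [DProt.toProt_bits]
  rw [sum_push]
  have e1 : ∀ ω : Fin (2 ^ h) → Smp × Bool,
      (∏ i, wt ε (ω i)) * (E.cost (fun i => sX (xi (ω i))) (fun i => sY (eta (ω i))) : ℝ) ≤
      (5 * 2 ^ h + 3) * (∏ i, wt ε (ω i)) +
        4 * ((∏ i, wt ε (ω i)) * (Phi (er (fun i => eta (ω i))) h 0 : ℝ)) := by
    intro ω
    have hc : E.cost (fun i => sX (xi (ω i))) (fun i => sY (eta (ω i))) ≤
        2 + 4 * Phi (er (fun i => eta (ω i))) h 0 + (5 * 2 ^ h + 1) := by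
      rw [hE, DProt.cost_comap]
      simp only [hX, hY]
      exact hD2 _ _ fun i => good_sample (ω i)
    have hc' : (E.cost (fun i => sX (xi (ω i))) (fun i => sY (eta (ω i))) : ℝ) ≤
        (5 * 2 ^ h + 3) + 4 * (Phi (er (fun i => eta (ω i))) h 0 : ℝ) := by
      have : (E.cost (fun i => sX (xi (ω i))) (fun i => sY (eta (ω i))) : ℝ) ≤
        ((2 + 4 * Phi (er (fun i => eta (ω i))) h 0 + (5 * 2 ^ h + 1) : ℕ) : ℝ) := by
        exact_mod_cast hc
      refine this.trans (le_of_eq ?_)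
      push_cast
      ring
    have hw : 0 ≤ ∏ i, wt ε (ω i) := Finset.prod_nonneg fun i _ => wt_nonneg h0 h1 _
    have := mul_le_mul_of_nonneg_left hc' hw
    refine this.trans (le_of_eq ?_)
    ring
  refine (Finset.sum_le_sum fun ω _ => e1 ω).trans ?_
  rw [Finset.sum_add_distrib, ← Finset.mul_sum, ← Finset.mul_sum, sum_prod_wt]
  have := expect_phi ε h0 h1 h
  linarith

omit [Fintype X] [Fintype Y] [DecidableEq X] [DecidableEq Y] in
theorem exists_zeroError : ∃ P : Prot X Y Bool, P.ZeroError (fun x y => F0 (dX x) (dY y)) := by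
  obtain ⟨D, hD, _⟩ := naming 1 (fun _ _ => false)
  refine ⟨((D.comap (fun (x : X) (_ : Fin 1) => dX x) (fun (y : Y) (_ : Fin 1) => dY y)).bind
    (fun o => .leaf (o 0))).toProt, ?_⟩
  apply DProt.toProt_zeroError
  intro x y
  rw [DProt.run_bind, DProt.run_comap, hD]
  rfl

theorem lower (hX : ∀ x, dX (sX x) = x) (hY : ∀ y, dY (sY y) = y) {ε : ℝ} (h0 : 0 < ε)
    (hε : ε ≤ 2⁻¹ ^ 400) :
    5 + 14 * ε ≤ ICext (fun x y => F0 (dX x) (dY y))
      (push (wt ε) (fun ω => sX (xi ω)) (fun ω => sY (eta ω))) := by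
  unfold ICext
  apply le_csInf
  · obtain ⟨P, hP⟩ := exists_zeroError (X := X) (Y := Y) dX dY
    exact ⟨_, P, hP, rfl⟩
  · rintro v ⟨P, hP, rfl⟩
    obtain ⟨u, q, hI, he⟩ := link dX dY sX sY hX hY ε P hP
    rw [he]
    have hl := lower_bound hI h0 hε
    have h2 := Real.log_two_gt_d9
    have h3 := Real.log_two_lt_d9
    rw [le_div_iff₀ (by linarith)]
    have h4 : Real.log 32 = 5 * Real.log 2 := by
      rw [show (32 : ℝ) = 2 ^ 5 by norm_num, Real.log_pow]; norm_num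
    rw [h4] at hl
    nlinarith

end enc

end Pool.Agent.H32.Ext
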