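import Pool.Agent.H32.Ext.Contra
import Pool.Agent.H32.Ext.Basic

/-! EXT Link: from protocol trees to the data on the leaves. -/

namespace Pool.Agent.H32.Ext

open scoped BigOperators

theorem sum_push_one {Ω X Y : Type} [Fintype Ω] [Fintype X] [Fintype Y] [DecidableEq X]
    [DecidableEq Y] (w : Ω → ℝ) (ξ : Ω → X) (η : Ω → Y) (g : X → Y → ℝ) :
    ∑ x, ∑ y, push w ξ η x y * g x y = ∑ ω, w ω * g (ξ ω) (η ω) := by
  have e1 : ∀ x y, push w ξ η x y * g x y =
      ∑ ω, (if ξ ω = x ∧ η ω = y then w ω else 0) * g x y := by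
    intro x y; unfold push; rw [Finset.sum_mul]
  simp only [e1]
  have e2 : ∀ x, ∑ y, ∑ ω, (if ξ ω = x ∧ η ω = y then w ω else 0) * g x y =
      ∑ ω, ∑ y, (if ξ ω = x ∧ η ω = y then w ω else 0) * g x y := fun x => Finset.sum_comm
  simp only [e2]
  rw [Finset.sum_comm]
  apply Finset.sum_congr rfl
  intro ω _
  rw [Finset.sum_eq_single (ξ ω), Finset.sum_eq_single (η ω)]
  · simp
  · intro y _ hy
    rw [if_neg (fun h => hy h.2.symm), zero_mul]
  · intro h; exact absurd (Finset.mem_univ _) h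
  · intro x _ hx
    apply Finset.sum_eq_zero
    intro y _
    rw [if_neg (fun h => hx h.1.symm), zero_mul]
  · intro h; exact absurd (Finset.mem_univ _) h

theorem sum_half {Ω : Type} [Fintype Ω] (ε N : ℝ) (g : Ω × Bool → ℝ) :
    ∑ ω : Ω × Bool, (if ω.2 then ε else 1 - ε) / N * g ω =
      (∑ ω, ((1 - ε) * g (ω, false) + ε * g (ω, true))) / N := by
  rw [Fintype.sum_prod_type, Finset.sum_div]
  apply Finset.sum_congr rfl
  intro ω _
  rw [Fintype.sum_bool, if_pos rfl, if_neg (by simp)]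
  ring

theorem sum_wt_mul (ε : ℝ) (g : Smp × Bool → ℝ) :
    ∑ ω, wt ε ω * g ω = avg (fun ω => (1 - ε) * g (ω, false) + ε * g (ω, true)) :=
  sum_half ε (Fintype.card Smp : ℝ) g

theorem alg (ε p0 l0 p1 l1 L : ℝ) : (1 - ε) * (p0 * (l0 / L)) + ε * (p1 * (l1 / L)) =
    ((1 - ε) * (p0 * l0) + ε * (p1 * l1)) / L := by ring

theorem avgG_div {Ω : Type} [Fintype Ω] (f : Ω → ℝ) (L : ℝ) :
    avgG f / L = avgG (fun ω => f ω / L) := by
  unfold avgG
  rw [div_right_comm, Finset.sum_div]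

theorem avg_div (f : Smp → ℝ) (L : ℝ) : avg f / L = avg (fun ω => f ω / L) := avgG_div f L

theorem xi_mk (ω : Smp) (b : Bool) : xi (ω, b) = xA ω := rfl
theorem eta_false (ω : Smp) : eta (ω, false) = yB ω (some ω.2.1) := rfl
theorem eta_true (ω : Smp) : eta (ω, true) = yB ω none := rfl

theorem link {X Y : Type} [Fintype X] [Fintype Y] [DecidableEq X] [DecidableEq Y]
    (dX : X → X0) (dY : Y → Y0) (sX : X0 → X) (sY : Y0 → Y) (hX : ∀ x, dX (sX x) = x)
    (hY : ∀ y, dY (sY y) = y) (ε : ℝ) (P : Prot X Y Bool)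
    (hP : P.ZeroError (fun x y => F0 (dX x) (dY y))) :
    ∃ (u : P.Leaf → X0 → ℝ) (q : P.Leaf → Y0 → ℝ), IsProt u q ∧
      P.extInfo (push (wt ε) (fun ω => sX (xi ω)) (fun ω => sY (eta ω))) =
        Info ε u q / Real.log 2 := by
  obtain ⟨u, q, hu, hq, hpr⟩ := P.exists_factor
  refine ⟨fun π x => u π (sX x), fun π y => q π (sY y), ⟨?_, ?_, ?_, ?_⟩, ?_⟩
  · exact fun π x => hu π _
  · exact fun π y => hq π _
  · intro x y
    have := P.sum_pr (sX x) (sY y)
    rw [← this]
    exact Finset.sum_congr rfl fun π _ => (hpr _ _ _).symm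
  · refine ⟨P.out, ?_⟩
    intro π x y h
    have := hP (sX x) (sY y) π (by rw [hpr]; exact h)
    rw [this]
    show F0 (dX (sX x)) (dY (sY y)) = _
    rw [hX, hY]
  · unfold Prot.extInfo Info
    rw [Finset.sum_div]
    apply Finset.sum_congr rfl
    intro π _
    have hmarg : ∑ x', ∑ y', push (wt ε) (fun ω => sX (xi ω)) (fun ω => sY (eta ω)) x' y' *
        P.pr x' y' π = Pbar ε (fun π x => u π (sX x)) (fun π y => q π (sY y)) π := by
      rw [sum_push_one, sum_wt_mul]
      unfold Pbar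
      refine congrArg avg (funext fun ω => ?_)
      rw [hpr, hpr]
      rfl
    rw [hmarg]
    have e : ∀ x y, push (wt ε) (fun ω => sX (xi ω)) (fun ω => sY (eta ω)) x y * P.pr x y π *
        Real.logb 2 (P.pr x y π / Pbar ε (fun π x => u π (sX x)) (fun π y => q π (sY y)) π) =
        push (wt ε) (fun ω => sX (xi ω)) (fun ω => sY (eta ω)) x y * (P.pr x y π *
        Real.logb 2 (P.pr x y π / Pbar ε (fun π x => u π (sX x)) (fun π y => q π (sY y)) π)) :=
      fun x y => mul_assoc _ _ _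
    simp only [e]
    rw [sum_push_one, sum_wt_mul, avg_div]
    refine congrArg avg (funext fun ω => ?_)
    simp only [hpr, xi_mk, eta_false, eta_true, P0, P1, Real.logb]
    exact alg ε _ _ _ _ _

end Pool.Agent.H32.Ext
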